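import Pool.Agent.Lib.H30F.SD
import Pool.Agent.Lib.H98M.M0

/-!
# H12Q, file L1: the sets separated by a pair are acyclic, if there is an uncrossed pair
-/

set_option autoImplicit false
set_option linter.unusedSectionVars false

namespace H12Q

open Finset H98P H98Z H98M H63F H30F

section poset

variable {α : Type*} [PartialOrder α] [Fintype α] [DecidableEq α]

/-- QUILLEN: `X` a part of `P`, all the parts of `X` above an element of `P` are acyclic, `X` is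
acyclic; then `P` is acyclic. -/
theorem ac_up {X P : α → Prop} (hXP : ∀ x, X x → P x)
    (hf : ∀ p, P p → AC (Ch fun x => X x ∧ p ≤ x)) (hX : AC (Ch X)) : AC (Ch P) := by
  have hac : ∀ s, Ch P s → s.Nonempty → AC (fun r => ∃ M ∈ s, Ch (fun x => X x ∧ M ≤ x) r) := by
    intro s hs hn
    obtain ⟨M, hM, h⟩ := ch_min hs hn
    refine ac_congr (K := Ch fun x => X x ∧ M ≤ x) (fun r => ?_) (hf M (hs.1 M hM))
    exact ⟨fun h1 => ⟨M, hM, h1⟩,
      fun ⟨M', hM', h1⟩ => ch_mono (fun x hx => ⟨hx.1, (h M' hM').trans hx.2⟩) h1⟩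
  have hac2 : ∀ s, Ch P s → s.Nonempty → AC (fun r => ∃ M ∈ s, Ch (fun x => P x ∧ M ≤ x) r) := by
    intro s hs hn
    obtain ⟨M, hM, h⟩ := ch_min hs hn
    refine ac_congr (K := Ch fun x => P x ∧ M ≤ x) (fun r => ?_)
      (ac_ch_cone (a := M) ⟨hs.1 M hM, le_rfl⟩ fun x hx => Or.inl hx.2)
    exact ⟨fun h1 => ⟨M, hM, h1⟩,
      fun ⟨M', hM', h1⟩ => ch_mono (fun x hx => ⟨hx.1, (h M' hM').trans hx.2⟩) h1⟩
  refine ac_transfer (Ch P) (Ch X) ch_dn ch_dn (ch_empty P) (ch_empty X)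
    (fun s r => ∃ M ∈ s, Ch (fun x => X x ∧ M ≤ x) r) (fun s T => T ⊆ s)
    (fun s r => ∃ M ∈ s, Ch (fun x => P x ∧ M ≤ x) r)
    ?_ ?_ ?_ ?_ ?_ ?_ ?_ ?_ ?_ ?_ ?_ ?_ ?_ hX
  · rintro s t hst _ _ r ⟨M, hM, h⟩
    exact ⟨M, hst hM, h⟩
  · rintro s _ ⟨M, hM⟩
    exact ⟨M, hM, ch_empty _⟩
  · exact hac
  · rintro s _ _ r ⟨M, _, h⟩
    exact ch_mono (fun x hx => hx.1) h
  · exact fun s t hst _ _ r hr => hr.trans hst
  · exact fun s _ _ => empty_subset _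
  · exact fun s _ hn => ac_simplex hn
  · exact fun s hs _ r hr => ch_dn _ _ hr (ch_mono hXP hs)
  · rintro s t hst _ _ r ⟨M, hM, h⟩
    exact ⟨M, hst hM, h⟩
  · intro s hs hn
    obtain ⟨M, hM, h⟩ := ch_min hs hn
    exact ⟨M, hM, fun x hx => ⟨hs.1 x hx, h x hx⟩, hs.2⟩
  · exact hac2
  · rintro s _ _ r ⟨M, _, h⟩
    exact ch_mono (fun x hx => hx.1) h
  · rintro s t r _ _ ⟨M, hM, h⟩ _ h3
    exact ⟨M, hM, ch_dn _ _ h3 (ch_mono (fun x hx => ⟨hXP x hx.1, hx.2⟩) h)⟩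

/-- QUILLEN: `X` a part of `P`, all the parts of `X` below an element of `P` are acyclic, `X` is
acyclic; then `P` is acyclic. -/
theorem ac_low {X P : α → Prop} (hXP : ∀ x, X x → P x)
    (hf : ∀ p, P p → AC (Ch fun x => X x ∧ x ≤ p)) (hX : AC (Ch X)) : AC (Ch P) := by
  have hac : ∀ s, Ch P s → s.Nonempty → AC (fun r => ∃ M ∈ s, Ch (fun x => X x ∧ x ≤ M) r) := by
    intro s hs hn
    obtain ⟨M, hM, h⟩ := ch_max hs hn
    refine ac_congr (K := Ch fun x => X x ∧ x ≤ M) (fun r => ?_) (hf M (hs.1 M hM))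
    exact ⟨fun h1 => ⟨M, hM, h1⟩,
      fun ⟨M', hM', h1⟩ => ch_mono (fun x hx => ⟨hx.1, hx.2.trans (h M' hM')⟩) h1⟩
  have hac2 : ∀ s, Ch P s → s.Nonempty → AC (fun r => ∃ M ∈ s, Ch (fun x => P x ∧ x ≤ M) r) := by
    intro s hs hn
    obtain ⟨M, hM, h⟩ := ch_max hs hn
    refine ac_congr (K := Ch fun x => P x ∧ x ≤ M) (fun r => ?_)
      (ac_ch_cone (a := M) ⟨hs.1 M hM, le_rfl⟩ fun x hx => Or.inr hx.2)
    exact ⟨fun h1 => ⟨M, hM, h1⟩,
      fun ⟨M', hM', h1⟩ => ch_mono (fun x hx => ⟨hx.1, hx.2.trans (h M' hM')⟩) h1⟩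
  refine ac_transfer (Ch P) (Ch X) ch_dn ch_dn (ch_empty P) (ch_empty X)
    (fun s r => ∃ M ∈ s, Ch (fun x => X x ∧ x ≤ M) r) (fun s T => T ⊆ s)
    (fun s r => ∃ M ∈ s, Ch (fun x => P x ∧ x ≤ M) r)
    ?_ ?_ ?_ ?_ ?_ ?_ ?_ ?_ ?_ ?_ ?_ ?_ ?_ hX
  · rintro s t hst _ _ r ⟨M, hM, h⟩
    exact ⟨M, hst hM, h⟩
  · rintro s _ ⟨M, hM⟩
    exact ⟨M, hM, ch_empty _⟩
  · exact hac
  · rintro s _ _ r ⟨M, _, h⟩
    exact ch_mono (fun x hx => hx.1) h
  · exact fun s t hst _ _ r hr => hr.trans hst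
  · exact fun s _ _ => empty_subset _
  · exact fun s _ hn => ac_simplex hn
  · exact fun s hs _ r hr => ch_dn _ _ hr (ch_mono hXP hs)
  · rintro s t hst _ _ r ⟨M, hM, h⟩
    exact ⟨M, hst hM, h⟩
  · intro s hs hn
    obtain ⟨M, hM, h⟩ := ch_max hs hn
    exact ⟨M, hM, fun x hx => ⟨hs.1 x hx, h x hx⟩, hs.2⟩
  · exact hac2
  · rintro s _ _ r ⟨M, _, h⟩
    exact ch_mono (fun x hx => hx.1) h
  · rintro s t r _ _ ⟨M, hM, h⟩ _ h3
    exact ⟨M, hM, ch_dn _ _ h3 (ch_mono (fun x hx => ⟨hXP x hx.1, hx.2⟩) h)⟩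

end poset

variable {V : Type*} [Fintype V] [DecidableEq V]

/-- `W` meets both sides of a partition of `V - x - y` without edges of `G` between the sides. -/
def Sep (G : Finset (Sym2 V)) (x y : V) (W : Finset V) : Prop :=
  ∃ C D : Finset V, Disjoint C D ∧ C ∪ D = (univ.erase x).erase y ∧
    (∀ a ∈ C, ∀ b ∈ D, s(a, b) ∉ G) ∧ (W ∩ C).Nonempty ∧ (W ∩ D).Nonempty

/-- `W` is separated by a pair of vertices outside `W`. -/
def X2 (G : Finset (Sym2 V)) (W : Finset V) : Prop :=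
  ∃ x y, x ≠ y ∧ x ∉ W ∧ y ∉ W ∧ Sep G x y W

/-- No pair separated by `x`, `y` separates anything. -/
def Unc (G : Finset (Sym2 V)) (x y : V) : Prop :=
  ∀ u v, u ≠ x → u ≠ y → v ≠ x → v ≠ y → Disc ((univ.erase u).erase v) G → ¬ Sep G x y {u, v}

theorem Sep.mono {G : Finset (Sym2 V)} {x y : V} {W W' : Finset V} (h : W ⊆ W')
    (hs : Sep G x y W) : Sep G x y W' := by
  obtain ⟨C, D, h1, h2, h3, h4, h5⟩ := hs
  exact ⟨C, D, h1, h2, h3, h4.mono (inter_subset_inter_right h), h5.mono (inter_subset_inter_right h)⟩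

theorem Sep.disc {G : Finset (Sym2 V)} {x y : V} {W : Finset V}
    (hs : Sep G x y W) : Disc ((univ.erase x).erase y) G := by
  obtain ⟨C, D, h1, h2, h3, h4, h5⟩ := hs
  exact ⟨C, D, h4.mono inter_subset_right, h5.mono inter_subset_right, h1, h2, h3⟩

theorem Sep.symm {G : Finset (Sym2 V)} {x y : V} {W : Finset V}
    (hs : Sep G x y W) : Sep G y x W := by
  obtain ⟨C, D, h1, h2, h3, h4, h5⟩ := hs
  exact ⟨C, D, h1, by rw [h2, erase_right_comm], h3, h4, h5⟩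

theorem disc_swap {G : Finset (Sym2 V)} {x y : V} (h : Disc ((univ.erase x).erase y) G) :
    Disc ((univ.erase y).erase x) G := by
  rwa [erase_right_comm]

/-- A connected piece. -/
theorem piece (G : Finset (Sym2 V)) (U : Finset V) {w : V} (hw : w ∈ U) :
    ∃ B : Finset V, B ⊆ U ∧ w ∈ B ∧ ¬ Disc B G ∧ ∀ a ∈ B, ∀ b ∈ U \ B, s(a, b) ∉ G := by
  classical
  have hne : (U.powerset.filter fun S => w ∈ S ∧ ∀ a ∈ S, ∀ b ∈ U \ S, s(a, b) ∉ G).Nonempty := by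
    refine ⟨U, ?_⟩
    rw [mem_filter, mem_powerset]
    refine ⟨subset_rfl, hw, fun a _ b hb => ?_⟩
    rw [sdiff_self] at hb
    exact absurd hb (notMem_empty b)
  obtain ⟨B, hB, hmin⟩ := exists_min_image _ (fun S : Finset V => S.card) hne
  rw [mem_filter, mem_powerset] at hB
  obtain ⟨hBU, hwB, hB⟩ := hB
  have key : ∀ C D : Finset V, D.Nonempty → Disjoint C D → C ∪ D = B →
      (∀ a ∈ C, ∀ b ∈ D, s(a, b) ∉ G) → w ∉ C := by
    intro C D hD hCD hu h hwC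
    have hCB : C ⊆ B := hu ▸ subset_union_left
    have hDB : D ⊆ B := hu ▸ subset_union_right
    have h1 := hmin C (by
      rw [mem_filter, mem_powerset]
      refine ⟨hCB.trans hBU, hwC, fun a ha b hb => ?_⟩
      rw [mem_sdiff] at hb
      by_cases hbB : b ∈ B
      · have : b ∈ D := by
          rw [← hu, mem_union] at hbB
          exact hbB.resolve_left hb.2
        exact h a ha b this
      · exact hB a (hCB ha) b (mem_sdiff.2 ⟨hb.1, hbB⟩))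
    have h2 : B.card = C.card + D.card := by rw [← hu, card_union_of_disjoint hCD]
    have h3 := hD.card_pos
    omega
  refine ⟨B, hBU, hwB, ?_, hB⟩
  rintro ⟨C, D, hC, hD, hCD, hu, h⟩
  have hwu : w ∈ C ∪ D := hu ▸ hwB
  rcases mem_union.1 hwu with h1 | h1
  · exact key C D hD hCD hu h h1
  · refine key D C hC hCD.symm (by rw [union_comm, hu]) ?_ h1
    intro a ha b hb hab
    rw [Sym2.eq_swap] at hab
    exact h b hb a ha hab

/-- A connected set lies on one side. -/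
theorem oneside {G : Finset (Sym2 V)} {B C D U : Finset V} (hB : ¬ Disc B G) (hCD : Disjoint C D)
    (hu : C ∪ D = U) (h : ∀ a ∈ C, ∀ b ∈ D, s(a, b) ∉ G) (hBU : B ⊆ U) : B ⊆ C ∨ B ⊆ D := by
  by_contra hcon
  rw [not_or, not_subset, not_subset] at hcon
  obtain ⟨⟨a, ha, ha'⟩, ⟨b, hb, hb'⟩⟩ := hcon
  have haD : a ∈ D := by
    have := hBU ha
    rw [← hu, mem_union] at this
    exact this.resolve_left ha'
  have hbC : b ∈ C := by
    have := hBU hb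
    rw [← hu, mem_union] at this
    exact this.resolve_right hb'
  refine hB ⟨C ∩ B, D ∩ B, ⟨b, mem_inter.2 ⟨hbC, hb⟩⟩, ⟨a, mem_inter.2 ⟨haD, ha⟩⟩, ?_, ?_, ?_⟩
  · exact disjoint_of_subset_left inter_subset_left
      (disjoint_of_subset_right inter_subset_left hCD)
  · rw [← union_inter_distrib_right, hu]
    exact inter_eq_right.2 hBU
  · exact fun p hp q hq => h p (mem_inter.1 hp).1 q (mem_inter.1 hq).1

section main

variable {G : Finset (Sym2 V)} {x y : V}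

/-- Both `x` and `y` have neighbours in a closed side. -/
theorem nbr (hcut : ∀ z, ¬ Disc (univ.erase z) G) {B : Finset V}
    (hBU : B ⊆ (univ.erase x).erase y) (hBn : B.Nonempty) (hxy : x ≠ y)
    (hB : ∀ a ∈ B, ∀ b ∈ ((univ.erase x).erase y) \ B, s(a, b) ∉ G) : ∃ b ∈ B, s(b, x) ∈ G := by
  by_contra hcon
  push Not at hcon
  refine hcut y ⟨B, (univ.erase y) \ B, hBn, ⟨x, ?_⟩, disjoint_sdiff, ?_, ?_⟩
  · rw [mem_sdiff, mem_erase]
    refine ⟨⟨hxy, mem_univ x⟩, fun h => ?_⟩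
    have := hBU h
    rw [mem_erase, mem_erase] at this
    exact this.2.1 rfl
  · refine union_sdiff_of_subset fun a ha => ?_
    have := hBU ha
    rw [mem_erase, mem_erase] at this
    exact mem_erase.2 ⟨this.1, mem_univ a⟩
  · intro a ha b hb
    rw [mem_sdiff, mem_erase] at hb
    by_cases hbx : b = x
    · rw [hbx]
      exact hcon a ha
    · exact hB a ha b (mem_sdiff.2 ⟨mem_erase.2 ⟨hb.1.1, mem_erase.2 ⟨hbx, mem_univ b⟩⟩, hb.2⟩)

/-- `W` inside `B + x + y`, `B` connected, `u`, `v` not in `B`: `u`, `v` do not separate `W`. -/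
theorem nosep {B W : Finset V} {u v : V} (hB : ¬ Disc B G)
    (hx : ∃ b ∈ B, s(b, x) ∈ G) (hy : ∃ b ∈ B, s(b, y) ∈ G) (hW : ∀ w ∈ W, w ∈ B ∨ w = x ∨ w = y)
    (hu : u ∉ B) (hv : v ∉ B) : ¬ Sep G u v W := by
  have key : ∀ C D : Finset V, Disjoint C D → (∀ a ∈ C, ∀ b ∈ D, s(a, b) ∉ G) → B ⊆ C →
      ¬ (W ∩ D).Nonempty := by
    rintro C D hCD h hBC ⟨w, hw⟩
    rw [mem_inter] at hw
    rcases hW w hw.1 with h1 | h1 | h1
    · exact disjoint_left.1 hCD (hBC h1) hw.2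
    · obtain ⟨b, hb, hbx⟩ := hx
      rw [← h1] at hbx
      exact h b (hBC hb) w hw.2 hbx
    · obtain ⟨b, hb, hby⟩ := hy
      rw [← h1] at hby
      exact h b (hBC hb) w hw.2 hby
  rintro ⟨C, D, hCD, hU, h, h4, h5⟩
  have hBU : B ⊆ (univ.erase u).erase v := by
    intro a ha
    exact mem_erase.2 ⟨fun h1 => hv (h1 ▸ ha), mem_erase.2 ⟨fun h1 => hu (h1 ▸ ha), mem_univ a⟩⟩
  rcases oneside hB hCD hU h hBU with h1 | h1
  · exact key C D hCD h h1 h5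
  · refine key D C hCD.symm ?_ h1 h4
    intro a ha b hb hab
    rw [Sym2.eq_swap] at hab
    exact h b hb a ha hab

/-- (L1), from an uncrossed pair. -/
theorem L1 (hcut : ∀ z, ¬ Disc (univ.erase z) G) (hxy : x ≠ y)
    (hd : Disc ((univ.erase x).erase y) G) (hU : Unc G x y) : AC (Ch (X2 G)) := by
  classical
  obtain ⟨U, hUd⟩ : ∃ U : Finset V, U = (univ.erase x).erase y := ⟨_, rfl⟩
  have hxU : x ∉ U := by
    rw [hUd, mem_erase, mem_erase]
    exact fun h => h.2.1 rfl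
  have hyU : y ∉ U := by
    rw [hUd, mem_erase, mem_erase]
    exact fun h => h.1 rfl
  have hmU : ∀ w, w ≠ x → w ≠ y → w ∈ U := fun w h1 h2 => by
    rw [hUd]
    exact mem_erase.2 ⟨h2, mem_erase.2 ⟨h1, mem_univ w⟩⟩
  have hnx : ∀ w ∈ U, w ≠ x := fun w hw h => hxU (h ▸ hw)
  have hny : ∀ w ∈ U, w ≠ y := fun w hw h => hyU (h ▸ hw)
  -- separation of `W` by `x`, `y` only depends on `W ∩ U`
  have hsU : ∀ W, Sep G x y W → Sep G x y (W ∩ U) := by
    rintro W ⟨C, D, h1, h2, h3, ⟨c, hc⟩, ⟨d, hd⟩⟩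
    have hCU : C ⊆ U := hUd ▸ h2 ▸ subset_union_left
    have hDU : D ⊆ U := hUd ▸ h2 ▸ subset_union_right
    rw [mem_inter] at hc hd
    exact ⟨C, D, h1, h2, h3, ⟨c, mem_inter.2 ⟨mem_inter.2 ⟨hc.1, hCU hc.2⟩, hc.2⟩⟩,
      ⟨d, mem_inter.2 ⟨mem_inter.2 ⟨hd.1, hDU hd.2⟩, hd.2⟩⟩⟩
  have hSU : Sep G x y U := by
    obtain ⟨C, D, hC, hD, hCD, hu, h⟩ := hd
    have hCU : C ⊆ U := hUd ▸ hu ▸ subset_union_left
    have hDU : D ⊆ U := hUd ▸ hu ▸ subset_union_right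
    exact ⟨C, D, hCD, hu, h, by rwa [inter_eq_right.2 hCU], by rwa [inter_eq_right.2 hDU]⟩
  have hX2 : ∀ W, x ∉ W → y ∉ W → Sep G x y W → X2 G W := fun W h1 h2 h3 => ⟨x, y, hxy, h1, h2, h3⟩
  -- the sets which meet both sides
  have hA : AC (Ch fun W : Finset V => X2 G W ∧ Sep G x y W) := by
    refine ac_low (X := fun W : Finset V => (X2 G W ∧ Sep G x y W) ∧ W ⊆ U) (fun W h => h.1) ?_ ?_
    · rintro W ⟨-, h2⟩
      refine ac_ch_cone (a := W ∩ U) ⟨⟨⟨?_, hsU W h2⟩, inter_subset_right⟩, inter_subset_left⟩ ?_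
      · exact hX2 _ (fun h => hxU (mem_inter.1 h).2) (fun h => hyU (mem_inter.1 h).2) (hsU W h2)
      · rintro Z ⟨⟨-, h3⟩, h4⟩
        exact Or.inr (subset_inter h4 h3)
    · exact ac_ch_cone (a := U) ⟨⟨hX2 U hxU hyU hSU, hSU⟩, subset_rfl⟩ fun Z hZ => Or.inr hZ.2
  refine ac_up (X := fun W : Finset V => X2 G W ∧ Sep G x y W) (fun W h => h.1) ?_ hA
  intro W hW
  by_cases hWA : Sep G x y W
  · exact ac_ch_cone (a := W) ⟨⟨hW, hWA⟩, le_rfl⟩ fun Z hZ => Or.inl hZ.2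
  obtain ⟨u, v, huv, huW, hvW, hs⟩ := hW
  -- a common form: a piece `B` which misses `u`, `v` and contains `W ∩ U` is impossible
  have himp : ∀ B : Finset V, B ⊆ U → B.Nonempty → ¬ Disc B G →
      (∀ a ∈ B, ∀ b ∈ U \ B, s(a, b) ∉ G) → (∀ w ∈ W, w ∈ B ∨ w = x ∨ w = y) → u ∉ B → v ∉ B →
      False := by
    intro B hBU hBn hBd hB hWB hu hv
    rw [hUd] at hBU hB
    have hBx := nbr hcut hBU hBn hxy hB
    have hBy : ∃ b ∈ B, s(b, y) ∈ G := by
      rw [erase_right_comm] at hBU hB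
      exact nbr hcut hBU hBn hxy.symm hB
    exact nosep hBd hBx hBy hWB hu hv hs
  -- if `u`, `v` are both in `U`, they are not separated by `x`, `y`
  have hun : u ∈ U → v ∈ U → ¬ Sep G x y {u, v} := fun h1 h2 =>
    hU u v (hnx u h1) (hny u h1) (hnx v h2) (hny v h2) hs.disc
  -- `W ∩ U` is not empty
  have hWU : ∃ w, w ∈ W ∩ U := by
    by_contra hcon
    have hWxy : ∀ w ∈ W, w = x ∨ w = y := by
      intro w hw
      by_contra h
      rw [not_or] at h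
      exact hcon ⟨w, mem_inter.2 ⟨hw, hmU w h.1 h.2⟩⟩
    have hcl : ∀ D C : Finset V, D.Nonempty → Disjoint C D → C ∪ D = U →
        (∀ a ∈ C, ∀ b ∈ D, s(a, b) ∉ G) → u ∉ D → v ∉ D → False := by
      rintro D C ⟨d, hdD⟩ hCD hu h huD hvD
      have hDU : D ⊆ U := hu ▸ subset_union_right
      obtain ⟨B, hBU, hdB, hBd, hB⟩ := piece G U (hDU hdD)
      have hBD : B ⊆ D := by
        rcases oneside hBd hCD hu h hBU with h1 | h1
        · exact absurd hdD (disjoint_left.1 hCD (h1 hdB))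
        · exact h1
      exact himp B hBU ⟨d, hdB⟩ hBd hB (fun w hw => Or.inr (hWxy w hw)) (fun h1 => huD (hBD h1))
        fun h1 => hvD (hBD h1)
    obtain ⟨C, D, hC, hD, hCD, hu, h⟩ := hd
    have hu' : C ∪ D = U := hUd ▸ hu
    have h' : ∀ a ∈ D, ∀ b ∈ C, s(a, b) ∉ G := by
      intro a ha b hb hab
      rw [Sym2.eq_swap] at hab
      exact h b hb a ha hab
    have hu'' : D ∪ C = U := by rw [union_comm, hu']
    have hmemU : ∀ a, a ∈ C ∨ a ∈ D → a ∈ U := fun a ha => hu' ▸ mem_union.2 ha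
    have hdj : ∀ a, a ∈ C → a ∈ D → False := fun a h1 h2 => disjoint_left.1 hCD h1 h2
    have hsep : ∀ a b, a ∈ C → b ∈ D → Sep G x y {a, b} := fun a b ha hb =>
      ⟨C, D, hCD, hu, h, ⟨a, mem_inter.2 ⟨mem_insert_self a _, ha⟩⟩,
        ⟨b, mem_inter.2 ⟨mem_insert_of_mem (mem_singleton_self b), hb⟩⟩⟩
    by_cases h1 : u ∈ C ∨ v ∈ C
    · refine hcl D C hD hCD hu' h ?_ ?_
      · intro huD
        rcases h1 with h1 | h1
        · exact hdj u h1 huD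
        · refine hun (hmemU u (Or.inr huD)) (hmemU v (Or.inl h1)) ?_
          rw [pair_comm]
          exact hsep v u h1 huD
      · intro hvD
        rcases h1 with h1 | h1
        · exact hun (hmemU u (Or.inl h1)) (hmemU v (Or.inr hvD)) (hsep u v h1 hvD)
        · exact hdj v h1 hvD
    · rw [not_or] at h1
      exact hcl C D hC hCD.symm hu'' h' h1.1 h1.2
  obtain ⟨w0, hw0⟩ := hWU
  rw [mem_inter] at hw0
  obtain ⟨B, hBU, hwB, hBd, hB⟩ := piece G U hw0.2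
  -- `B` and its complement `R` in `U`
  have hpart : B ∪ U \ B = (univ.erase x).erase y := by
    rw [← hUd]
    exact union_sdiff_of_subset hBU
  have hWB : ∀ w ∈ W, w ∈ B ∨ w = x ∨ w = y := by
    intro w hw
    by_contra h
    rw [not_or, not_or] at h
    exact hWA ⟨B, U \ B, disjoint_sdiff, hpart, hB, ⟨w0, mem_inter.2 ⟨hw0.1, hwB⟩⟩,
      ⟨w, mem_inter.2 ⟨hw, mem_sdiff.2 ⟨hmU w h.2.1 h.2.2, h.1⟩⟩⟩⟩
  -- `u`, `v` are not in `R`
  have hR : ∀ a b, (a = u ∧ b = v) ∨ (a = v ∧ b = u) → a ∉ U \ B := by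
    intro a b hab ha
    rw [mem_sdiff] at ha
    by_cases hbB : b ∈ B
    · have hsab : Sep G x y {a, b} :=
        ⟨B, U \ B, disjoint_sdiff, hpart, hB, ⟨b, mem_inter.2 ⟨mem_insert_of_mem
          (mem_singleton_self b), hbB⟩⟩, ⟨a, mem_inter.2 ⟨mem_insert_self a _, mem_sdiff.2 ha⟩⟩⟩
      rcases hab with ⟨h1, h2⟩ | ⟨h1, h2⟩
      · rw [h1, h2] at hsab
        exact hun (h1 ▸ ha.1) (h2 ▸ hBU hbB) hsab
      · rw [h1, h2, pair_comm] at hsab
        exact hun (h2 ▸ hBU hbB) (h1 ▸ ha.1) hsab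
    · rcases hab with ⟨h1, h2⟩ | ⟨h1, h2⟩
      · exact himp B hBU ⟨w0, hwB⟩ hBd hB hWB (h1 ▸ ha.2) (h2 ▸ hbB)
      · exact himp B hBU ⟨w0, hwB⟩ hBd hB hWB (h2 ▸ hbB) (h1 ▸ ha.2)
  have huR : u ∉ U \ B := hR u v (Or.inl ⟨rfl, rfl⟩)
  have hvR : v ∉ U \ B := hR v u (Or.inr ⟨rfl, rfl⟩)
  -- adding a part of `R`
  have hadd : ∀ T : Finset V, T ⊆ U \ B → T.Nonempty → X2 G (W ∪ T) ∧ Sep G x y (W ∪ T) := by
    rintro T hT ⟨t, ht⟩
    refine ⟨⟨u, v, huv, ?_, ?_, hs.mono subset_union_left⟩, B, U \ B, disjoint_sdiff, hpart, hB,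
      ⟨w0, mem_inter.2 ⟨mem_union_left _ hw0.1, hwB⟩⟩, ⟨t, mem_inter.2 ⟨mem_union_right _ ht, hT ht⟩⟩⟩
    · rw [mem_union, not_or]
      exact ⟨huW, fun h => huR (hT h)⟩
    · rw [mem_union, not_or]
      exact ⟨hvW, fun h => hvR (hT h)⟩
  have hRn : (U \ B).Nonempty := by
    rw [sdiff_nonempty]
    intro h
    apply hBd
    rw [subset_antisymm hBU h, hUd]
    exact hd
  -- the sets of the first family above `W`
  refine ac_low (X := fun Z : Finset V => ((X2 G Z ∧ Sep G x y Z) ∧ W ≤ Z) ∧ Z ≤ W ∪ U \ B)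
    (fun Z h => h.1) ?_ ?_
  · rintro Z ⟨⟨-, h2⟩, h3⟩
    have hTn : (Z ∩ (U \ B)).Nonempty := by
      obtain ⟨C, D, h1, h4, h5, ⟨c, hc⟩, ⟨d, hd'⟩⟩ := h2
      rw [mem_inter] at hc hd'
      have h4' : C ∪ D = U := by rw [h4, hUd]
      rcases oneside hBd h1 h4' h5 hBU with h6 | h6
      · refine ⟨d, mem_inter.2 ⟨hd'.1, mem_sdiff.2 ⟨h4' ▸ mem_union_right C hd'.2, fun h7 => ?_⟩⟩⟩
        exact disjoint_left.1 h1 (h6 h7) hd'.2
      · refine ⟨c, mem_inter.2 ⟨hc.1, mem_sdiff.2 ⟨h4' ▸ mem_union_left D hc.2, fun h7 => ?_⟩⟩⟩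
        exact disjoint_left.1 h1 hc.2 (h6 h7)
    refine ac_ch_cone (a := W ∪ Z ∩ (U \ B)) ⟨⟨⟨hadd _ inter_subset_right hTn, subset_union_left⟩,
      union_subset_union_right inter_subset_right⟩, union_subset h3 inter_subset_left⟩ ?_
    rintro T ⟨⟨-, h4⟩, h5⟩
    refine Or.inr fun t ht => ?_
    rcases mem_union.1 (h4 ht) with h6 | h6
    · exact mem_union_left _ h6
    · exact mem_union_right _ (mem_inter.2 ⟨h5 ht, h6⟩)
  · exact ac_ch_cone (a := W ∪ U \ B) ⟨⟨hadd _ subset_rfl hRn, subset_union_left⟩, le_rfl⟩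
      fun Z hZ => Or.inr hZ.2

end main

end H12Q
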