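import Pool.Agent.Lib.H12Q.LB
import Pool.Agent.Lib.H53E.Unc
import Pool.Agent.Lib.H59D.E0
import Pool.Agent.Lib.H35Y.HamL
import Pool.Agent.Lib.H63D.D

/-!
# H12Q, file L1H: (L1) without hypotheses on uncrossed pairs

If `G` is 2-connected, has a separating pair and no Hamiltonian cycle, then the sets separated by a pair
are acyclic.
-/

set_option autoImplicit false
set_option linter.unusedSectionVars false

namespace H12Q

open Finset H98P H98M H63F H30F

variable {V : Type*} [Fintype V] [DecidableEq V]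

/-- (L1) for `n + 1` edges. -/
theorem l1_card {G : Finset (Sym2 V)} (hcut : ∀ z, ¬ Disc (univ.erase z) G)
    (hl : ∀ e ∈ G, ¬ e.IsDiag) (he : Fintype.card V + 1 ≤ G.card)
    (h2 : ∃ x y, x ≠ y ∧ Disc ((univ.erase x).erase y) G) : AC (Ch (X2 G)) := by
  classical
  obtain ⟨x, y, hxy, hd, hU⟩ := H53E.exists_unc hcut (by
    rwa [filter_true_of_mem hl]) h2
  exact L1 hcut hxy hd hU

/-- (L1) in the words of `H63D.formD`. -/
theorem l1_ham {G : Finset (Sym2 V)} (h3 : 3 ≤ Fintype.card V) (hl : ∀ e ∈ G, ¬ e.IsDiag)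
    (hT : H98TF.TC G) (hN : ¬ H63D.No2 G) (hH : ¬ H63D.Ham G) : AC (Ch (H63D.X2 G)) := by
  have he : Fintype.card V + 1 ≤ G.card := by
    by_contra hcon
    exact hH (H35Y.ham_list hl h3 hT.1 hT.2 (by omega))
  have h2 : ∃ x y, x ≠ y ∧ Disc ((univ.erase x).erase y) G := by
    by_contra hcon
    push Not at hcon
    exact hN hcon
  exact l1_card hT.2 hl he h2

/-- (L1) in the words of `LD.Def`. -/
theorem l1_ld {G : Finset (Sym2 V)} (hT : LD.TCY G univ) (hs : ∃ x y P Q, LD.Sep G univ x y P Q)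
    (hd : ¬ ∀ v, (G.filter fun e => v ∈ e).card = 2) : AC (Ch fun W : Finset V => LD.X2 G univ W) := by
  have h3 : 3 ≤ Fintype.card V := by
    rw [← card_univ]
    exact hT.three
  have he : Fintype.card V + 1 ≤ G.card := by
    by_contra hcon
    exact hd (H59D.deg_two hT.loop hT.conn (fun z => hT.conn' z (mem_univ z)) h3 (by omega))
  obtain ⟨x, y, P, Q, h⟩ := hs
  refine ac_congr (fun s => ?_) (l1_card (fun z => hT.conn' z (mem_univ z)) hT.loop he
    ⟨x, y, h.ne, (disc_iff h.ne).2 ⟨P, Q, h⟩⟩)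
  exact ⟨fun h => ch_mono (fun W hW => x2_iff.1 hW) h, fun h => ch_mono (fun W hW => x2_iff.2 hW) h⟩

end H12Q
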