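import Pool.Agent.Lib.H12Q.L1
import Pool.Agent.Lib.LD.Def

/-!
# H12Q, file LB: `L1` in the language of `LD.Def`, and crossing pairs
-/

set_option autoImplicit false
set_option linter.unusedSectionVars false

namespace H12Q

open Finset H98P H98M H63F H30F

variable {V : Type*} [DecidableEq V]

/-- If `u`, `v` are on different sides of `{x, y}`, then `x`, `y` are on different sides of
`{u, v}`. -/
theorem cross_one {E : Finset (Sym2 V)} {Y : Finset V} {x y u v : V} {C D P Q : Finset V}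
    (hT : LD.TCY E Y) (h1 : LD.Sep E Y x y C D) (h2 : LD.Sep E Y u v P Q) (hu : u ∈ C)
    (hv : v ∈ D) (hx : x ∈ P) (hy : y ∈ P) : False := by
  have hmY : ∀ a, a ∈ Y → a = x ∨ a = y ∨ a ∈ C ∨ a ∈ D := by
    intro a ha
    rw [← h1.eq, mem_insert, mem_insert, mem_union] at ha
    exact ha
  have hmY2 : ∀ a, a ∈ Y → a = u ∨ a = v ∨ a ∈ P ∨ a ∈ Q := by
    intro a ha
    rw [← h2.eq, mem_insert, mem_insert, mem_union] at ha
    exact ha
  have key : ∀ (C' D' : Finset V) (u' v' : V), LD.Sep E Y x y C' D' → LD.Sep E Y u' v' P Q →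
      v' ∈ D' → (∀ a, a ∈ Y → a = x ∨ a = y ∨ a ∈ C' ∨ a ∈ D') →
      (∀ a, a ∈ Y → a = u' ∨ a = v' ∨ a ∈ P ∨ a ∈ Q) → u' ∈ Y → u' ∈ C' →
      ¬ (Q ∩ C').Nonempty := by
    intro C' D' u' v' h3 h4 hv' hm hm2 hu'Y hu'C hne
    have hQu : u' ∉ Q := h4.xQ
    have hQY : Q ⊆ Y := fun a ha => by
      rw [← h4.eq]
      exact mem_insert_of_mem (mem_insert_of_mem (mem_union_right P ha))
    have hPY : P ⊆ Y := fun a ha => by
      rw [← h4.eq]
      exact mem_insert_of_mem (mem_insert_of_mem (mem_union_left Q ha))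
    refine hT.conn' u' hu'Y ⟨Q ∩ C', (Y.erase u') \ (Q ∩ C'), hne, ⟨x, ?_⟩, disjoint_sdiff, ?_, ?_⟩
    · rw [mem_sdiff, mem_erase]
      refine ⟨⟨fun h => h3.xP (h ▸ hu'C), hPY hx⟩, fun h => h3.xP (mem_inter.1 h).2⟩
    · refine union_sdiff_of_subset fun a ha => ?_
      rw [mem_inter] at ha
      exact mem_erase.2 ⟨fun h => hQu (h ▸ ha.1), hQY ha.1⟩
    · intro a ha b hb hab
      rw [mem_inter] at ha
      rw [mem_sdiff, mem_erase] at hb
      rcases hm b hb.1.2 with h | h | h | h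
      · rw [h, Sym2.eq_swap] at hab
        exact h4.noE x hx a ha.1 hab
      · rw [h, Sym2.eq_swap] at hab
        exact h4.noE y hy a ha.1 hab
      · rcases hm2 b hb.1.2 with h5 | h5 | h5 | h5
        · exact hb.1.1 h5
        · rw [h5] at h
          exact disjoint_left.1 h3.dis h hv'
        · rw [Sym2.eq_swap] at hab
          exact h4.noE b h5 a ha.1 hab
        · exact hb.2 (mem_inter.2 ⟨h5, h⟩)
      · exact h3.noE a ha.2 b h hab
  have huY : u ∈ Y := by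
    rw [← h2.eq]
    exact mem_insert_self u _
  have hvY : v ∈ Y := by
    rw [← h2.eq]
    exact mem_insert_of_mem (mem_insert_self v _)
  obtain ⟨q, hq⟩ := h2.Q0
  have hqY : q ∈ Y := by
    rw [← h2.eq]
    exact mem_insert_of_mem (mem_insert_of_mem (mem_union_right P hq))
  rcases hmY q hqY with h | h | h | h
  · exact disjoint_left.1 h2.dis hx (h ▸ hq)
  · exact disjoint_left.1 h2.dis hy (h ▸ hq)
  · exact key C D u v h1 h2 hv hmY hmY2 huY hu ⟨q, mem_inter.2 ⟨hq, h⟩⟩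
  · refine key D C v u h1.symm h2.flip hu ?_ ?_ hvY hv ⟨q, mem_inter.2 ⟨hq, h⟩⟩
    · intro a ha
      rcases hmY a ha with h | h | h | h
      · exact Or.inl h
      · exact Or.inr (Or.inl h)
      · exact Or.inr (Or.inr (Or.inr h))
      · exact Or.inr (Or.inr (Or.inl h))
    · intro a ha
      rcases hmY2 a ha with h | h | h | h
      · exact Or.inr (Or.inl h)
      · exact Or.inl h
      · exact Or.inr (Or.inr (Or.inl h))
      · exact Or.inr (Or.inr (Or.inr h))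

/-- CROSSING IS SYMMETRIC. -/
theorem cross_symm {E : Finset (Sym2 V)} {Y : Finset V} {x y u v : V} {C D P Q : Finset V}
    (hT : LD.TCY E Y) (h1 : LD.Sep E Y x y C D) (h2 : LD.Sep E Y u v P Q) (hu : u ∈ C)
    (hv : v ∈ D) : (x ∈ P ∧ y ∈ Q) ∨ (x ∈ Q ∧ y ∈ P) := by
  have hxY : x ∈ Y := by
    rw [← h1.eq]
    exact mem_insert_self x _
  have hyY : y ∈ Y := by
    rw [← h1.eq]
    exact mem_insert_of_mem (mem_insert_self y _)
  rw [← h2.eq, mem_insert, mem_insert, mem_union] at hxY hyY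
  have hx : x ∈ P ∨ x ∈ Q := by
    rcases hxY with h | h | h
    · exact absurd hu (h ▸ h1.xP)
    · exact absurd hv (h ▸ h1.xQ)
    · exact h
  have hy : y ∈ P ∨ y ∈ Q := by
    rcases hyY with h | h | h
    · exact absurd hu (h ▸ h1.yP)
    · exact absurd hv (h ▸ h1.yQ)
    · exact h
  rcases hx with hx | hx <;> rcases hy with hy | hy
  · exact (cross_one hT h1 h2 hu hv hx hy).elim
  · exact Or.inl ⟨hx, hy⟩
  · exact Or.inr ⟨hx, hy⟩
  · exact (cross_one hT h1 h2.symm hu hv hx hy).elim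

/-- An uncrossed pair: no separating pair `u`, `v` has `u` and `v` on different sides. -/
theorem unc_iff {E : Finset (Sym2 V)} {Y : Finset V} {x y : V} (hT : LD.TCY E Y)
    (hs : ∃ C D, LD.Sep E Y x y C D) : LD.Unc E Y x y ↔
    ∀ u v C D P Q, LD.Sep E Y u v P Q → LD.Sep E Y x y C D → ¬ (u ∈ C ∧ v ∈ D) := by
  constructor
  · rintro h u v C D P Q h1 h2 ⟨h3, h4⟩
    rcases cross_symm hT h2 h1 h3 h4 with h5 | h5
    · exact h u v P Q h1 h5
    · exact h u v Q P h1.symm ⟨h5.1, h5.2⟩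
  · rintro h u v P Q h1 ⟨h3, h4⟩
    obtain ⟨C, D, h2⟩ := hs
    rcases cross_symm hT h1 h2 h3 h4 with h5 | h5
    · exact h u v C D P Q h1 h2 h5
    · exact h u v D C P Q h1 h2.symm h5

section univ

variable [Fintype V]

theorem sep_iff {G : Finset (Sym2 V)} {x y : V} (hxy : x ≠ y) {W : Finset V} :
    Sep G x y W ↔ ∃ P Q, LD.Sep G univ x y P Q ∧ (∃ a ∈ W, a ∈ P) ∧ ∃ b ∈ W, b ∈ Q := by
  constructor
  · rintro ⟨C, D, h1, h2, h3, ⟨a, ha⟩, ⟨b, hb⟩⟩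
    rw [mem_inter] at ha hb
    have hm : ∀ w, w ∈ C ∪ D → w ≠ x ∧ w ≠ y := by
      intro w hw
      rw [h2, mem_erase, mem_erase] at hw
      exact ⟨hw.2.1, hw.1⟩
    refine ⟨C, D, ⟨hxy, fun h => (hm x (mem_union_left D h)).1 rfl,
      fun h => (hm x (mem_union_right C h)).1 rfl, fun h => (hm y (mem_union_left D h)).2 rfl,
      fun h => (hm y (mem_union_right C h)).2 rfl, ⟨a, ha.2⟩, ⟨b, hb.2⟩, h1, ?_, h3⟩,
      ⟨a, ha.1, ha.2⟩, ⟨b, hb.1, hb.2⟩⟩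
    rw [h2, insert_erase (mem_erase.2 ⟨hxy.symm, mem_univ y⟩), insert_erase (mem_univ x)]
  · rintro ⟨C, D, h, ⟨a, ha, haC⟩, ⟨b, hb, hbD⟩⟩
    refine ⟨C, D, h.dis, ?_, h.noE, ⟨a, mem_inter.2 ⟨ha, haC⟩⟩, ⟨b, mem_inter.2 ⟨hb, hbD⟩⟩⟩
    rw [← h.eq, erase_insert, erase_insert]
    · rw [mem_union, not_or]
      exact ⟨h.yP, h.yQ⟩
    · rw [mem_insert, mem_union, not_or, not_or]
      exact ⟨h.ne, h.xP, h.xQ⟩

theorem disc_iff {G : Finset (Sym2 V)} {x y : V} (hxy : x ≠ y) :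
    Disc ((univ.erase x).erase y) G ↔ ∃ P Q, LD.Sep G univ x y P Q := by
  constructor
  · rintro ⟨C, D, ⟨a, ha⟩, ⟨b, hb⟩, h1, h2, h3⟩
    obtain ⟨P, Q, h, -⟩ := (sep_iff (W := univ) hxy).1
      ⟨C, D, h1, h2, h3, ⟨a, mem_inter.2 ⟨mem_univ a, ha⟩⟩, ⟨b, mem_inter.2 ⟨mem_univ b, hb⟩⟩⟩
    exact ⟨P, Q, h⟩
  · rintro ⟨P, Q, h⟩
    obtain ⟨a, ha⟩ := h.P0
    obtain ⟨b, hb⟩ := h.Q0
    exact ((sep_iff (W := univ) hxy).2 ⟨P, Q, h, ⟨a, mem_univ a, ha⟩, ⟨b, mem_univ b, hb⟩⟩).disc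

theorem x2_iff {G : Finset (Sym2 V)} {W : Finset V} : X2 G W ↔ LD.X2 G univ W := by
  constructor
  · rintro ⟨x, y, hxy, hx, hy, h⟩
    obtain ⟨P, Q, h1, h2, h3⟩ := (sep_iff hxy).1 h
    exact ⟨x, y, P, Q, h1, hx, hy, h2, h3⟩
  · rintro ⟨x, y, P, Q, h1, hx, hy, h2, h3⟩
    exact ⟨x, y, h1.ne, hx, hy, (sep_iff h1.ne).2 ⟨P, Q, h1, h2, h3⟩⟩

theorem unc_to {G : Finset (Sym2 V)} {x y : V} (hT : LD.TCY G univ) (hxy : x ≠ y)
    (hU : LD.Unc G univ x y) : Unc G x y := by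
  rintro u v hux huy hvx hvy hd hs
  have huv : u ≠ v := by
    rintro rfl
    rw [erase_idem] at hd
    exact hT.conn' u (mem_univ u) hd
  obtain ⟨P, Q, h1⟩ := (disc_iff huv).1 hd
  obtain ⟨C, D, h2, ⟨a, ha, haC⟩, ⟨b, hb, hbD⟩⟩ := (sep_iff hxy).1 hs
  have h3 := (unc_iff hT ⟨C, D, h2⟩).1 hU
  rw [mem_insert, mem_singleton] at ha hb
  rcases ha with ha | ha <;> rcases hb with hb | hb
  · rw [ha] at haC
    rw [hb] at hbD
    exact disjoint_left.1 h2.dis haC hbD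
  · rw [ha] at haC
    rw [hb] at hbD
    exact h3 u v C D P Q h1 h2 ⟨haC, hbD⟩
  · rw [ha] at haC
    rw [hb] at hbD
    exact h3 u v D C P Q h1 h2.symm ⟨hbD, haC⟩
  · rw [ha] at haC
    rw [hb] at hbD
    exact disjoint_left.1 h2.dis haC hbD

theorem unc_from {G : Finset (Sym2 V)} {x y : V} (hT : LD.TCY G univ) (hxy : x ≠ y)
    (hd : Disc ((univ.erase x).erase y) G) (hU : Unc G x y) : LD.Unc G univ x y := by
  obtain ⟨C0, D0, h0⟩ := (disc_iff hxy).1 hd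
  refine (unc_iff hT ⟨C0, D0, h0⟩).2 ?_
  rintro u v C D P Q h1 h2 ⟨h3, h4⟩
  have hx : x ∉ C ∧ x ∉ D := ⟨h2.xP, h2.xQ⟩
  have hy : y ∉ C ∧ y ∉ D := ⟨h2.yP, h2.yQ⟩
  refine hU u v (fun h => hx.1 (h ▸ h3)) (fun h => hy.1 (h ▸ h3)) (fun h => hx.2 (h ▸ h4))
    (fun h => hy.2 (h ▸ h4)) ((disc_iff h1.ne).2 ⟨P, Q, h1⟩) ((sep_iff hxy).2 ⟨C, D, h2,
      ⟨u, mem_insert_self u _, h3⟩, ⟨v, mem_insert_of_mem (mem_singleton_self v), h4⟩⟩)

/-- (L1U), from an uncrossed pair: the sets separated by a pair are acyclic. -/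
theorem l1u {G : Finset (Sym2 V)} (hT : LD.TCY G univ) {x y : V} {P Q : Finset V}
    (hs : LD.Sep G univ x y P Q) (hU : LD.Unc G univ x y) :
    AC (Ch fun W : Finset V => LD.X2 G univ W) := by
  refine ac_congr (fun s => ?_) (L1 (fun z => hT.conn' z (mem_univ z)) hs.ne
    ((disc_iff hs.ne).2 ⟨P, Q, hs⟩) (unc_to hT hs.ne hU))
  exact ⟨fun h => ch_mono (fun W hW => x2_iff.1 hW) h, fun h => ch_mono (fun W hW => x2_iff.2 hW) h⟩

end univ

end H12Q
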