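import Pool.Agent.Lib.H12Q.W5

/-!
# H12Q, file T5: the exchange lemma for coverings by cycles of length at least five

Tripod form (helper9): the path between the two ends is put into the state of the walk, one vertex
`b` of degree three, one active vertex of degree one.
-/

set_option autoImplicit false
set_option linter.unusedSectionVars false

namespace H12Q

open SimpleGraph H58E

variable {V : Type*} [Finite V]

/-- the fixed data -/
structure Cy (F2 : SimpleGraph V) (A : Set V) (b : V) : Prop where
  s2 : SF F2
  h2 : ∀ v, dg F2 v = 0 ∨ dg F2 v = 2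
  h2A : ∀ v ∈ A, dg F2 v = 2
  h2b : dg F2 b = 0

/-- the state of the walk -/
structure T5 (N0 F2 : SimpleGraph V) (A : Set V) (b a : V) (F : SimpleGraph V) : Prop where
  le : ∀ u v, F.Adj u v → N0.Adj u v ∨ F2.Adj u v
  sf : SF F
  ab : a ≠ b
  db : dg F b = 3
  da : dg F a = 1
  dv : ∀ v, v ≠ a → v ≠ b → dg F v = 0 ∨ dg F v = 2
  dA : ∀ v ∈ A, v ≠ a → dg F v = 2

/-- the outcome -/
def Go (N0 F2 : SimpleGraph V) (A : Set V) (b : V) : Prop :=
  ∃ F' : SimpleGraph V, (∀ u v, F'.Adj u v → N0.Adj u v ∨ F2.Adj u v) ∧ SF F' ∧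
    (∀ v, dg F' v = 0 ∨ dg F' v = 2) ∧ (∀ v ∈ A, dg F' v = 2) ∧ dg F' b = 2

variable {N0 F2 : SimpleGraph V} {A : Set V} {b : V}

theorem Cy.nb (hc : Cy F2 A b) : b ∉ A := fun h => by
  have := hc.h2A b h
  have := hc.h2b
  omega

theorem Cy.adj_ne_b (hc : Cy F2 A b) {u v : V} (h : F2.Adj u v) : v ≠ b := by
  rintro rfl
  have := adj_pos h.symm
  have := hc.h2b
  omega

theorem Cy.two (hc : Cy F2 A b) {u v : V} (h : F2.Adj u v) : dg F2 u = 2 := by
  have := adj_pos h
  rcases hc.h2 u with h1 | h1 <;> omega

theorem t_le2 {a : V} {F : SimpleGraph V} (hS : T5 N0 F2 A b a F) {v : V} (hv : v ≠ b) :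
    dg F v ≤ 2 := by
  by_cases h1 : v = a
  · rw [h1, hS.da]; omega
  · rcases hS.dv v h1 hv with h3 | h3 <;> omega

/-- remove `x u`, add `a x` -/
theorem tswap (hc : Cy F2 A b) {a x u : V} {F : SimpleGraph V}
    (hS : T5 N0 F2 A b a F) (hax : a ≠ x) (h2ax : F2.Adj a x) (hn : ¬ F.Adj a x)
    (hxu : F.Adj x u) (hsf : SF (addE (remE F x u) a x hax)) :
    (u = b ∧ Go N0 F2 A b) ∨ (u ≠ b ∧ T5 N0 F2 A b u (addE (remE F x u) a x hax)) := by
  have xu : x ≠ u := F.ne_of_adj hxu
  have au : a ≠ u := by
    rintro rfl
    exact hn hxu.symm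
  have hn' : ¬ (remE F x u).Adj a x := fun h => hn h.1
  have l1 : dg (addE (remE F x u) a x hax) a = 2 := by
    rw [dg_add_left _ hax hn', dg_rem_other F hax au, hS.da]
  have l2 : dg (addE (remE F x u) a x hax) x = dg F x := by
    rw [dg_add_right _ hax hn', dg_rem_left F hxu]
  have l3 : dg (addE (remE F x u) a x hax) u + 1 = dg F u := by
    rw [dg_add_other _ hax au.symm xu.symm, dg_rem_right F hxu]
  have l4 : ∀ v, v ≠ a → v ≠ u → dg (addE (remE F x u) a x hax) v = dg F v := by
    intro v h1 h2
    by_cases h3 : v = x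
    · rw [h3]; exact l2
    · rw [dg_add_other _ hax h1 h3, dg_rem_other F h3 h2]
  have hle : ∀ p q, (addE (remE F x u) a x hax).Adj p q → N0.Adj p q ∨ F2.Adj p q := by
    intro p q h
    rcases h with h | h | h
    · exact hS.le p q h.1
    · rw [h.1, h.2]; exact Or.inr h2ax
    · rw [h.1, h.2]; exact Or.inr h2ax.symm
  by_cases hub : u = b
  · left
    have hb : dg (addE (remE F x u) a x hax) u = 2 := by
      have := hS.db
      rw [← hub] at this
      omega
    refine ⟨hub, _, hle, hsf, ?_, ?_, by rw [← hub]; exact hb⟩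
    · intro v
      by_cases h3 : v = a
      · right; rw [h3]; exact l1
      · by_cases h4 : v = u
        · right; rw [h4]; exact hb
        · rw [l4 v h3 h4]; exact hS.dv v h3 (hub ▸ h4)
    · intro v hv
      by_cases h3 : v = a
      · rw [h3]; exact l1
      · rw [l4 v h3 (fun h4 => hc.nb (by rw [← hub, ← h4]; exact hv))]
        exact hS.dA v hv h3
  · right
    refine ⟨hub, hle, hsf, hub, ?_, ?_, ?_, ?_⟩
    · rw [l4 b hS.ab.symm (Ne.symm hub)]; exact hS.db
    · have h1 := adj_pos hxu.symm
      rcases hS.dv u au.symm hub with h2 | h2 <;> omega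
    · intro v h1 h2
      by_cases h3 : v = a
      · right; rw [h3]; exact l1
      · rw [l4 v h3 h1]; exact hS.dv v h3 h2
    · intro v hv h1
      by_cases h3 : v = a
      · rw [h3]; exact l1
      · rw [l4 v h3 h1]; exact hS.dA v hv h3

/-- add an edge that closes no short cycle, then repair the degree at its end -/
theorem tadd (hc : Cy F2 A b) {a x : V} {F : SimpleGraph V}
    (hS : T5 N0 F2 A b a F) (hax : a ≠ x) (h2ax : F2.Adj a x) (hn : ¬ F.Adj a x)
    (hsf : SF (addE F a x hax)) :
    Go N0 F2 A b ∨ ∃ F' a', ms F' F2 < ms F F2 ∧ T5 N0 F2 A b a' F' := by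
  have hxb : x ≠ b := hc.adj_ne_b h2ax
  have l1 : dg (addE F a x hax) a = 2 := by rw [dg_add_left F hax hn, hS.da]
  have l2 : dg (addE F a x hax) x = dg F x + 1 := dg_add_right F hax hn
  have l4 : ∀ v, v ≠ a → v ≠ x → dg (addE F a x hax) v = dg F v :=
    fun v h1 h2 => dg_add_other F hax h1 h2
  have hle : ∀ p q, (addE F a x hax).Adj p q → N0.Adj p q ∨ F2.Adj p q := by
    intro p q h
    rcases h with h | h | h
    · exact hS.le p q h
    · rw [h.1, h.2]; exact Or.inr h2ax
    · rw [h.1, h.2]; exact Or.inr h2ax.symm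
  rcases hS.dv x hax.symm hxb with h0 | h0
  · right
    refine ⟨addE F a x hax, x, ms_add_lt F F2 hax hn h2ax, hle, hsf, hxb, ?_, ?_, ?_, ?_⟩
    · rw [l4 b hS.ab.symm hxb.symm]; exact hS.db
    · omega
    · intro v h1 h2
      by_cases h3 : v = a
      · right; rw [h3]; exact l1
      · rw [l4 v h3 h1]; exact hS.dv v h3 h2
    · intro v hv h1
      by_cases h3 : v = a
      · rw [h3]; exact l1
      · rw [l4 v h3 h1]; exact hS.dA v hv h3
  · -- an edge of `F` at `x` outside `F2`
    obtain ⟨u, hu, hu2⟩ : ∃ u, F.Adj x u ∧ ¬ F2.Adj x u := by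
      by_contra hcon
      push Not at hcon
      obtain ⟨p, q, hpq, hp, hq, -⟩ := nb2 h0
      exact no3 (F := F2) (y := x) (p := p) (q := q) (r := a) (by rw [hc.two h2ax.symm])
        (hcon p hp) (hcon q hq) h2ax.symm hpq (fun h => hn (by rw [← h]; exact hp.symm))
        (fun h => hn (by rw [← h]; exact hq.symm))
    have hsf' : SF (addE (remE F x u) a x hax) := by
      refine sf_mono ?_ hsf
      intro p q h
      rcases h with h | h
      · exact Or.inl h.1
      · exact Or.inr h
    have hlt : ms (addE (remE F x u) a x hax) F2 < ms F F2 :=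
      (ms_add_lt (remE F x u) F2 hax (fun h => hn h.1) h2ax).trans (ms_rem_lt F F2 hu hu2)
    rcases tswap hc hS hax h2ax hn hu hsf' with h1 | h1
    · exact Or.inl h1.2
    · exact Or.inr ⟨_, u, hlt, h1.2⟩

/-- the second neighbour -/
theorem other {F : SimpleGraph V} {a x : V} (h : dg F a = 2) (_hx : F.Adj a x) :
    ∃ x', x' ≠ x ∧ F.Adj a x' := by
  obtain ⟨p, q, hpq, hp, hq, -⟩ := nb2 h
  by_cases h : p = x
  · exact ⟨q, fun h1 => hpq (h.trans h1.symm), hq⟩
  · exact ⟨p, h, hp⟩

/-- one step of the walk -/
theorem tstep (hc : Cy F2 A b) {a : V} {F : SimpleGraph V} (hS : T5 N0 F2 A b a F) :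
    Go N0 F2 A b ∨ ∃ F' a', ms F' F2 < ms F F2 ∧ T5 N0 F2 A b a' F' := by
  obtain ⟨w, haw, hw⟩ := nb1 hS.da
  rcases hc.h2 a with h2a | h2a
  · -- `a` is not in `F2`: remove its edge
    have h2aw : ¬ F2.Adj a w := fun h => by
      have := adj_pos h
      omega
    have haw' : a ≠ w := F.ne_of_adj haw
    have haA : a ∉ A := fun h => by
      have := hc.h2A a h
      omega
    have l1 : dg (remE F a w) a = 0 := by
      have := dg_rem_left F haw
      have := hS.da
      omega
    have l2 := dg_rem_right F haw
    have l4 : ∀ v, v ≠ a → v ≠ w → dg (remE F a w) v = dg F v :=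
      fun v h1 h2 => dg_rem_other F h1 h2
    have hle : ∀ p q, (remE F a w).Adj p q → N0.Adj p q ∨ F2.Adj p q :=
      fun p q h => hS.le p q h.1
    by_cases hwb : w = b
    · left
      have hb : dg (remE F a w) w = 2 := by
        have := hS.db
        rw [← hwb] at this
        omega
      refine ⟨_, hle, sf_rem hS.sf a w, ?_, ?_, by rw [← hwb]; exact hb⟩
      · intro v
        by_cases h3 : v = a
        · left; rw [h3]; exact l1
        · by_cases h4 : v = w
          · right; rw [h4]; exact hb
          · rw [l4 v h3 h4]; exact hS.dv v h3 (hwb ▸ h4)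
      · intro v hv
        have h3 : v ≠ a := fun h4 => haA (h4 ▸ hv)
        rw [l4 v h3 (fun h4 => hc.nb (by rw [← hwb, ← h4]; exact hv))]
        exact hS.dA v hv h3
    · right
      refine ⟨_, w, ms_rem_lt F F2 haw h2aw, hle, sf_rem hS.sf a w, hwb, ?_, ?_, ?_, ?_⟩
      · rw [l4 b hS.ab.symm (Ne.symm hwb)]; exact hS.db
      · have h1 := adj_pos haw.symm
        rcases hS.dv w haw'.symm hwb with h2 | h2 <;> omega
      · intro v h1 h2
        by_cases h3 : v = a
        · left; rw [h3]; exact l1
        · rw [l4 v h3 h1]; exact hS.dv v h3 h2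
      · intro v hv h1
        have h3 : v ≠ a := fun h4 => haA (h4 ▸ hv)
        rw [l4 v h3 h1]; exact hS.dA v hv h3
  · -- add an edge of `F2` at `a`
    by_cases hsafe : ∃ x, F2.Adj a x ∧ ¬ F.Adj a x ∧ ¬ F.Adj w x ∧ ∀ y, F.Adj w y → ¬ F.Adj y x
    · obtain ⟨x, h2ax, hn, hs1, hs2⟩ := hsafe
      refine tadd hc hS (F2.ne_of_adj h2ax) h2ax hn (sf_add hS.sf _ ?_)
      intro w' hw'
      rw [hw w' hw']
      exact ⟨hs1, hs2⟩
    by_cases hA : ∃ x, F2.Adj a x ∧ ¬ F.Adj a x ∧ F.Adj w x ∧ ¬ F2.Adj w x
    · obtain ⟨x, h2ax, hn, hwx, h2wx⟩ := hA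
      have hax := F2.ne_of_adj h2ax
      have hsf : SF (addE (remE F x w) a x hax) := by
        refine sf_add (sf_rem hS.sf x w) hax ?_
        intro w' hw'
        have e1 : w' = w := hw w' hw'.1
        subst e1
        exact ⟨fun h => h.2.2 ⟨rfl, rfl⟩, fun y hy hyx => hS.sf.1 w' y x hy.1 hyx.1 hwx⟩
      have hlt : ms (addE (remE F x w) a x hax) F2 < ms F F2 :=
        (ms_add_lt (remE F x w) F2 hax (fun h => hn h.1) h2ax).trans
          (ms_rem_lt F F2 hwx.symm (fun h => h2wx h.symm))
      rcases tswap hc hS hax h2ax hn hwx.symm hsf with h1 | h1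
      · exact Or.inl h1.2
      · exact Or.inr ⟨_, w, hlt, h1.2⟩
    have hsfB : ∀ x y (hax : a ≠ x), ¬ F.Adj a x → ¬ F.Adj w x → F.Adj w y → F.Adj y x →
        SF (addE (remE F x y) a x hax) := by
      intro x y hax hn hwx hwy hyx
      refine sf_add (sf_rem hS.sf x y) hax ?_
      intro w' hw'
      have e1 : w' = w := hw w' hw'.1
      subst e1
      refine ⟨fun h => hwx h.1, fun y' hy' hyx' => ?_⟩
      rcases hS.sf.2 w' y x y' hwy hyx hyx'.1.symm hy'.1.symm with h3 | h3
      · exact hn (by rw [← h3]; exact haw)
      · rw [← h3] at hyx'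
        exact hyx'.2.2 ⟨rfl, rfl⟩
    by_cases hB : ∃ x y, F2.Adj a x ∧ ¬ F.Adj a x ∧ ¬ F.Adj w x ∧ F.Adj w y ∧ F.Adj y x ∧
        ¬ F2.Adj y x
    · obtain ⟨x, y, h2ax, hn, hwx, hwy, hyx, h2yx⟩ := hB
      have hax := F2.ne_of_adj h2ax
      have hlt : ms (addE (remE F x y) a x hax) F2 < ms F F2 :=
        (ms_add_lt (remE F x y) F2 hax (fun h => hn h.1) h2ax).trans
          (ms_rem_lt F F2 hyx.symm (fun h => h2yx h.symm))
      rcases tswap hc hS hax h2ax hn hyx.symm (hsfB x y hax hn hwx hwy hyx) with h1 | h1
      · exact Or.inl h1.2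
      · exact Or.inr ⟨_, y, hlt, h1.2⟩
    -- all candidates are in trouble
    have hX : ∀ x, F2.Adj a x → ¬ F.Adj a x →
        (F.Adj w x ∧ F2.Adj w x) ∨ (¬ F.Adj w x ∧ ∃ y, F.Adj w y ∧ F.Adj y x ∧ F2.Adj y x) := by
      intro x h1 h2
      by_cases h3 : F.Adj w x
      · left
        refine ⟨h3, ?_⟩
        by_contra h4
        exact hA ⟨x, h1, h2, h3, h4⟩
      · right
        refine ⟨h3, ?_⟩
        by_contra h4
        push Not at h4
        apply hsafe
        refine ⟨x, h1, h2, h3, fun y hy hyx => ?_⟩
        exact hB ⟨x, y, h1, h2, h3, hy, hyx, h4 y hy hyx⟩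
    obtain ⟨x, h2ax, hn⟩ := ex_of_lt (F := F) (F2 := F2) (a := a) (by rw [hS.da, h2a]; omega)
    have hax := F2.ne_of_adj h2ax
    rcases hX x h2ax hn with ⟨hwx, h2wx⟩ | ⟨hwx, y, hwy, hyx, h2yx⟩
    · exfalso
      -- `a w` is not in `F2`
      have hwb : w ≠ b := hc.adj_ne_b h2wx.symm
      have h2aw : ¬ F2.Adj a w := fun h => hc.s2.1 a w x h h2wx h2ax
      obtain ⟨x', hx'x, h2ax'⟩ := other h2a h2ax
      have hn' : ¬ F.Adj a x' := fun h => h2aw (by rw [← hw x' h]; exact h2ax')
      have hax' := F2.ne_of_adj h2ax'
      rcases hX x' h2ax' hn' with ⟨h1, -⟩ | ⟨-, y, hwy, hyx', h2yx'⟩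
      · exact no3 (t_le2 hS hwb) haw.symm hwx h1 hax hax' hx'x.symm
      · have hya : y ≠ a := by
          rintro rfl
          exact hn' hyx'
        by_cases h1 : y = x
        · rw [h1] at h2yx'
          exact hc.s2.1 a x x' h2ax h2yx' h2ax'
        · exact no3 (t_le2 hS hwb) haw.symm hwx hwy hax hya.symm (Ne.symm h1)
    · have hyb : y ≠ b := hc.adj_ne_b h2yx.symm
      have hya : y ≠ a := by
        rintro rfl
        exact hn hyx
      have hwx' : w ≠ x := by
        rintro rfl
        exact hn haw
      have hsf := hsfB x y hax hn hwx hwy hyx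
      have hle : ms (addE (remE F x y) a x hax) F2 ≤ ms F F2 := by
        have h3 := ms_add_two (remE F x y) F2 hax (fun h => hn h.1) h2ax
        have h4 := ms_rem_le F F2 x y
        omega
      have hyN : ∀ v, (addE (remE F x y) a x hax).Adj y v → v = w := by
        intro v hv
        rcases hv with hv | hv | hv
        · by_contra h
          have h3 : v ≠ x := fun h4 => hv.2.2 ⟨rfl, h4⟩
          exact no3 (t_le2 hS hyb) hwy.symm hyx hv.1 hwx' (Ne.symm h) (Ne.symm h3)
        · exact absurd hv.1 hya
        · exact absurd hv.1 (F.ne_of_adj hyx)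
      obtain ⟨y', hy'x, h2yy'⟩ := other (hc.two h2yx) h2yx
      have hyy' : y ≠ y' := F2.ne_of_adj h2yy'
      have hS' : T5 N0 F2 A b y (addE (remE F x y) a x hax) := by
        rcases tswap hc hS hax h2ax hn hyx.symm hsf with h1 | h1
        · exact absurd h1.1 hyb
        · exact h1.2
      by_cases h2aw : F2.Adj a w
      · -- rotation, `w` is an inner vertex
        have hwb : w ≠ b := hc.adj_ne_b h2aw
        have hwN : ∀ v, F.Adj w v → v = a ∨ v = y := by
          intro v hv
          by_contra h
          rw [not_or] at h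
          exact no3 (t_le2 hS hwb) haw.symm hwy hv hya.symm (Ne.symm h.1) (Ne.symm h.2)
        have h2wy : ¬ F2.Adj w y := by
          intro h
          rcases hc.s2.2 a w y x h2aw h h2yx h2ax.symm with h3 | h3
          · exact hya h3.symm
          · exact hwx' h3
        have haN2 : ∀ v, F2.Adj a v → v = w ∨ v = x := by
          intro v hv
          by_contra h
          rw [not_or] at h
          exact no3 (h2a.le) h2aw h2ax hv hwx' (Ne.symm h.1) (Ne.symm h.2)
        have hy'w : y' ≠ w := by
          rintro rfl
          exact h2wy h2yy'.symm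
        have hy'a : y' ≠ a := by
          rintro rfl
          rcases haN2 y h2yy'.symm with h3 | h3
          · exact F.ne_of_adj hwy h3.symm
          · exact F.ne_of_adj hyx h3
        have hn' : ¬ (addE (remE F x y) a x hax).Adj y y' := fun h => hy'w (hyN y' h)
        have hsf' : SF (addE (addE (remE F x y) a x hax) y y' hyy') := by
          refine sf_add hsf hyy' ?_
          intro w1 hw1
          have e1 : w1 = w := hyN w1 hw1
          subst e1
          have hwN' : ∀ v, (addE (remE F x y) a x hax).Adj w1 v → v = a ∨ v = y := by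
            intro v hv
            rcases hv with hv | hv | hv
            · exact hwN v hv.1
            · exact absurd hv.1 (F.ne_of_adj haw).symm
            · exact absurd hv.1 hwx'
          refine ⟨fun h => ?_, fun y1 hy1 h => ?_⟩
          · rcases hwN' y' h with h3 | h3
            · exact hy'a h3
            · exact hyy' h3.symm
          · rcases hwN' y1 hy1 with h3 | h3
            · subst h3
              rcases h with h | h | h
              · exact hy'w (hw y' h.1)
              · exact hy'x h.2
              · exact hax h.1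
            · rw [h3] at h
              exact hn' h
        rcases tadd hc hS' hyy' h2yy' hn' hsf' with h3 | ⟨F', a', h3, h4⟩
        · exact Or.inl h3
        · exact Or.inr ⟨F', a', lt_of_lt_of_le h3 hle, h4⟩
      · -- `a w` is not in `F2`: then `w = b`
        obtain ⟨x', hx'x, h2ax'⟩ := other h2a h2ax
        have hn1 : ¬ F.Adj a x' := fun h => h2aw (by rw [← hw x' h]; exact h2ax')
        have hax' := F2.ne_of_adj h2ax'
        have hwx1 : w ≠ x' := by
          rintro rfl
          exact hn1 haw
        have haN2 : ∀ v, F2.Adj a v → v = x ∨ v = x' := by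
          intro v hv
          by_contra h
          rw [not_or] at h
          exact no3 (h2a.le) h2ax h2ax' hv hx'x.symm (Ne.symm h.1) (Ne.symm h.2)
        rcases hX x' h2ax' hn1 with ⟨h1, h1'⟩ | ⟨hwx'', z, hwz, hzx', h2zx'⟩
        · exfalso
          have hwb : w ≠ b := hc.adj_ne_b h1'.symm
          by_cases h3 : x' = y
          · rw [h3] at h2ax'
            exact hc.s2.1 a y x h2ax' h2yx h2ax
          · exact no3 (t_le2 hS hwb) haw.symm hwy h1 hya.symm hax' (Ne.symm h3)
        · have hzb : z ≠ b := hc.adj_ne_b h2zx'.symm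
          have hza : z ≠ a := by
            rintro rfl
            exact hn1 hzx'
          have hzy : z ≠ y := by
            rintro rfl
            exact no3 (t_le2 hS hyb) hwy.symm hyx hzx' hwx' hwx1 hx'x.symm
          have hwb : w = b := by
            by_contra hwb
            exact no3 (t_le2 hS hwb) haw.symm hwy hwz hya.symm hza.symm hzy.symm
          have hwN : ∀ v, F.Adj w v → v = a ∨ v = y ∨ v = z := by
            intro v hv
            by_contra h
            rw [not_or, not_or] at h
            have h4 : ({a, y, z, v} : Set V).ncard ≤ dg F w := by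
              unfold dg
              apply Set.ncard_le_ncard _ (Set.toFinite _)
              rintro u (h5 | h5 | h5 | h5)
              · rw [h5]; exact haw.symm
              · rw [h5]; exact hwy
              · rw [h5]; exact hwz
              · rw [Set.mem_singleton_iff.1 h5]; exact hv
            have h5 : ({a, y, z, v} : Set V).ncard = 4 := by
              rw [Set.ncard_insert_of_notMem, Set.ncard_insert_of_notMem, Set.ncard_pair]
              · exact Ne.symm h.2.2
              · rintro (h6 | h6)
                · exact hzy h6.symm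
                · exact h.2.1 (Set.mem_singleton_iff.1 h6).symm
              · rintro (h6 | h6 | h6)
                · exact hya h6.symm
                · exact hza h6.symm
                · exact h.1 (Set.mem_singleton_iff.1 h6).symm
            rw [hwb, hS.db] at h4
            omega
          have hzN : ∀ v, F.Adj z v → v = w ∨ v = x' := by
            intro v hv
            by_contra h
            rw [not_or] at h
            exact no3 (t_le2 hS hzb) hwz.symm hzx' hv hwx1 (Ne.symm h.1) (Ne.symm h.2)
          have hyx1 : y ≠ x' := by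
            rintro rfl
            exact hwx'' hwy
          have hzx : z ≠ x := by
            rintro rfl
            exact hwx hwz
          have hy'w : y' ≠ w := by
            rw [hwb]
            exact hc.adj_ne_b h2yy'
          have hy'a : y' ≠ a := by
            rintro rfl
            rcases haN2 y h2yy'.symm with h3 | h3
            · exact F.ne_of_adj hyx h3
            · exact hyx1 h3
          have hy'x' : y' ≠ x' := by
            rintro rfl
            exact no3 (F := F2) (y := y') (hc.two h2ax'.symm).le h2ax'.symm h2zx'.symm h2yy'.symm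
              hza.symm hya.symm hzy
          have hn' : ¬ (addE (remE F x y) a x hax).Adj y y' := fun h => hy'w (hyN y' h)
          by_cases hq : y' = z
          · -- close the tripod at `b`
            subst hq
            left
            -- F'' = N' + y y' - b y'
            have hwz' : (addE (remE F x y) a x hax).Adj y' w := by
              refine Or.inl ⟨hwz.symm, fun h => hzx h.1, fun h => hzy h.1⟩
            have hsf' : SF (addE (remE (addE (remE F x y) a x hax) y' w) y y' hyy') := by
              refine sf_add (sf_rem hsf y' w) hyy' ?_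
              intro w1 hw1
              have e1 : w1 = w := hyN w1 hw1.1
              subst e1
              refine ⟨fun h => h.2.2 ⟨rfl, rfl⟩, fun y1 hy1 h => ?_⟩
              -- a triangle of the old graph
              exact hsf.1 w1 y1 y' hy1.1 h.1 hwz'.symm
            rcases tswap hc hS' hyy' h2yy' hn' hwz' hsf' with h1 | h1
            · exact h1.2
            · exact absurd hwb h1.1
          · have hsf' : SF (addE (addE (remE F x y) a x hax) y y' hyy') := by
              refine sf_add hsf hyy' ?_
              intro w1 hw1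
              have e1 : w1 = w := hyN w1 hw1
              subst e1
              have hwN' : ∀ v, (addE (remE F x y) a x hax).Adj w1 v → v = a ∨ v = y ∨ v = z := by
                intro v hv
                rcases hv with hv | hv | hv
                · exact hwN v hv.1
                · exact absurd hv.1 (F.ne_of_adj haw).symm
                · exact absurd hv.1 hwx'
              refine ⟨fun h => ?_, fun y1 hy1 h => ?_⟩
              · rcases hwN' y' h with h3 | h3 | h3
                · exact hy'a h3
                · exact hyy' h3.symm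
                · exact hq h3
              · rcases hwN' y1 hy1 with h3 | h3 | h3
                · subst h3
                  rcases h with h | h | h
                  · exact hy'w (hw y' h.1)
                  · exact hy'x h.2
                  · exact hax h.1
                · rw [h3] at h
                  exact hn' h
                · subst h3
                  rcases h with h | h | h
                  · rcases hzN y' h.1 with h4 | h4
                    · exact hy'w h4
                    · exact hy'x' h4
                  · exact hza h.1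
                  · exact hzx h.1
            rcases tadd hc hS' hyy' h2yy' hn' hsf' with h3 | ⟨F', a', h3, h4⟩
            · exact Or.inl h3
            · exact Or.inr ⟨F', a', lt_of_lt_of_le h3 hle, h4⟩

theorem tripod (hc : Cy F2 A b) : ∀ (n : ℕ) (F : SimpleGraph V) (a : V),
    ms F F2 ≤ n → T5 N0 F2 A b a F → Go N0 F2 A b := by
  intro n
  induction n with
  | zero =>
    intro F a hn hS
    rcases tstep hc hS with h | ⟨F', a', h, -⟩
    · exact h
    · omega
  | succ n ih =>
    intro F a hn hS
    rcases tstep hc hS with h | ⟨F', a', h, h'⟩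
    · exact h
    · exact ih F' a' (by omega) h'

/-- growing a pendant path -/
theorem pend (G : SimpleGraph V) {c d : V} (p : G.Walk c d) :
    p.IsPath → ∀ F : SimpleGraph V, F ≤ G → SF F → dg F c = 1 →
      (∀ v ∈ p.support, v ≠ c → dg F v = 0) →
      ∃ N : SimpleGraph V, N ≤ G ∧ SF N ∧ dg N d = 1 ∧ (∀ v, v ∉ p.support → dg N v = dg F v) ∧
        ∀ v ∈ p.support, v ≠ d → dg N v = 2 := by
  induction p with
  | nil =>
    intro _ F hFG hsf hc _
    exact ⟨F, hFG, hsf, hc, fun v _ => rfl, fun v hv h => absurd (by simpa using hv) h⟩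
  | @cons c x d h q ih =>
    intro hp F hFG hsf hc hin
    have hcx : c ≠ x := G.ne_of_adj h
    rw [SimpleGraph.Walk.cons_isPath_iff] at hp
    have hx0 : dg F x = 0 := hin x (by simp) hcx.symm
    have hnx : ∀ v, ¬ F.Adj v x := fun v h3 => by
      have := adj_pos h3.symm
      omega
    have lc := dg_add_left F hcx (hnx c)
    have lx := dg_add_right F hcx (hnx c)
    have lo : ∀ v, v ≠ c → v ≠ x → dg (addE F c x hcx) v = dg F v :=
      fun v h3 h4 => dg_add_other F hcx h3 h4
    obtain ⟨N, n1, n2, n3, n4, n5⟩ := ih hp.1 (addE F c x hcx) (by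
        intro u v huv
        rcases huv with h3 | h3 | h3
        · exact hFG h3
        · rw [h3.1, h3.2]; exact h
        · rw [h3.1, h3.2]; exact h.symm)
      (sf_add hsf hcx (fun w hw => ⟨hnx w, fun y _ => hnx y⟩)) (by omega)
      (by
        intro v hv hvx
        have hvc : v ≠ c := fun h3 => hp.2 (h3 ▸ hv)
        rw [lo v hvc hvx]
        exact hin v (by simp [hv]) hvc)
    refine ⟨N, n1, n2, n3, ?_, ?_⟩
    · intro v hv
      rw [SimpleGraph.Walk.support_cons, List.mem_cons, not_or] at hv
      rw [n4 v hv.2, lo v hv.1 (fun h3 => hv.2 (by rw [h3]; exact q.start_mem_support))]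
    · intro v hv hvd
      rw [SimpleGraph.Walk.support_cons, List.mem_cons] at hv
      by_cases h3 : v ∈ q.support
      · exact n5 v h3 hvd
      · rcases hv with hv | hv
        · rw [n4 v h3, hv, lc]; omega
        · exact absurd hv h3

/-- `A` is covered by pairwise disjoint cycles of `G` of length at least five -/
def Cov5 (G : SimpleGraph V) (A : Set V) : Prop :=
  ∃ F : SimpleGraph V, F ≤ G ∧ SF F ∧ (∀ v, dg F v = 0 ∨ dg F v = 2) ∧ ∀ v ∈ A, dg F v = 2

/-- **Exchange lemma for cycles of length at least five.** -/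
theorem exchange5 (G : SimpleGraph V) (A : Set V) (b d : V)
    (h1 : Cov5 G (insert b A)) (h2 : Cov5 G (insert d A)) (p : G.Walk b d) (hp : p.IsPath)
    (hin : ∀ r ∈ p.support, r ≠ b → r ≠ d → ¬ Cov5 G (insert r A)) :
    Cov5 G (insert d (insert b A)) := by
  obtain ⟨F1, hG1, hs1, hF1, hA1⟩ := h1
  obtain ⟨F2, hG2, hs2, hF2, hA2⟩ := h2
  by_cases hd1 : dg F1 d = 0
  swap
  · refine ⟨F1, hG1, hs1, hF1, ?_⟩
    intro v hv
    rcases hv with rfl | hv
    · rcases hF1 v with h3 | h3
      · exact absurd h3 hd1
      · exact h3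
    · exact hA1 v hv
  by_cases hb2 : dg F2 b = 0
  swap
  · refine ⟨F2, hG2, hs2, hF2, ?_⟩
    intro v hv
    rcases hv with rfl | rfl | hv
    · exact hA2 v (Set.mem_insert _ _)
    · rcases hF2 v with h3 | h3
      · exact absurd h3 hb2
      · exact h3
    · exact hA2 v (Set.mem_insert_of_mem _ hv)
  have hr1 : ∀ r ∈ p.support, r ≠ b → dg F1 r = 0 := by
    intro r hr hrb
    by_cases hrd : r = d
    · rw [hrd]; exact hd1
    rcases hF1 r with h3 | h3
    · exact h3
    · exfalso
      apply hin r hr hrb hrd
      refine ⟨F1, hG1, hs1, hF1, ?_⟩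
      intro v hv
      rcases hv with rfl | hv
      · exact h3
      · exact hA1 v (Set.mem_insert_of_mem _ hv)
  have hb1 : dg F1 b = 2 := hA1 b (Set.mem_insert _ _)
  cases p with
  | nil => omega
  | @cons b x d h q =>
    have hbx : b ≠ x := G.ne_of_adj h
    rw [SimpleGraph.Walk.cons_isPath_iff] at hp
    have hx0 : dg F1 x = 0 := hr1 x (by simp) hbx.symm
    have hnx : ∀ v, ¬ F1.Adj v x := fun v h3 => by
      have := adj_pos h3.symm
      omega
    have lb := dg_add_left F1 hbx (hnx b)
    have lx := dg_add_right F1 hbx (hnx b)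
    have lo : ∀ v, v ≠ b → v ≠ x → dg (addE F1 b x hbx) v = dg F1 v :=
      fun v h3 h4 => dg_add_other F1 hbx h3 h4
    obtain ⟨N, n1, n2, n3, n4, n5⟩ := pend G q hp.1 (addE F1 b x hbx) (by
        intro u v huv
        rcases huv with h3 | h3 | h3
        · exact hG1 h3
        · rw [h3.1, h3.2]; exact h
        · rw [h3.1, h3.2]; exact h.symm)
      (sf_add hs1 hbx (fun w hw => ⟨hnx w, fun y _ => hnx y⟩)) (by omega)
      (by
        intro v hv hvx
        have hvb : v ≠ b := fun h3 => hp.2 (h3 ▸ hv)
        rw [lo v hvb hvx]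
        exact hr1 v (by simp [hv]) hvb)
    have hdb : d ≠ b := fun h3 => hp.2 (h3 ▸ q.end_mem_support)
    have hout : ∀ v, v ≠ b → v ∉ q.support → dg N v = dg F1 v := by
      intro v h3 h4
      rw [n4 v h4, lo v h3 (fun h5 => h4 (by rw [h5]; exact q.start_mem_support))]
    have hc : Cy F2 (insert d A) b := ⟨hs2, hF2, hA2, hb2⟩
    have hS : T5 N F2 (insert d A) b d N := by
      refine ⟨fun u v h3 => Or.inl h3, n2, hdb, ?_, n3, ?_, ?_⟩
      · rw [n4 b hp.2, lb, hb1]
      · intro v h3 h4
        by_cases h5 : v ∈ q.support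
        · exact Or.inr (n5 v h5 h3)
        · rw [hout v h4 h5]; exact hF1 v
      · intro v hv h3
        rcases hv with hv | hv
        · exact absurd hv h3
        · have h5 : dg F1 v = 2 := hA1 v (Set.mem_insert_of_mem _ hv)
          have h6 : v ≠ b := fun h7 => by
            have := hA2 v (Set.mem_insert_of_mem _ hv)
            rw [h7] at this
            omega
          have h7 : v ∉ q.support := fun h8 => by
            have := hr1 v (by simp [h8]) h6
            omega
          rw [hout v h6 h7]; exact h5
    obtain ⟨F', k1, k2, k3, k4, k5⟩ := tripod (N0 := N) hc _ N d le_rfl hS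
    refine ⟨F', ?_, k2, k3, ?_⟩
    · intro u v huv
      rcases k1 u v huv with h3 | h3
      · exact n1 h3
      · exact hG2 h3
    · intro v hv
      rcases hv with rfl | rfl | hv
      · exact k4 v (Set.mem_insert _ _)
      · exact k5
      · exact k4 v (Set.mem_insert_of_mem _ hv)

/-- walk form -/
theorem exchange5_walk (G : SimpleGraph V) (A : Set V) (b d : V)
    (h1 : Cov5 G (insert b A)) (h2 : Cov5 G (insert d A)) (p : G.Walk b d)
    (hin : ∀ r ∈ p.support, r ≠ b → r ≠ d → ¬ Cov5 G (insert r A)) :
    Cov5 G (insert d (insert b A)) := by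
  classical
  exact exchange5 G A b d h1 h2 p.bypass p.bypass_isPath
    (fun r hr => hin r (p.support_bypass_subset_support hr))

end H12Q
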