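import Pool.Agent.Lib.H58E.Exch

/-!
# H12Q, file W5: the exchange walk for coverings by cycles of length at least five

`SF F`: the graph `F` has no cycle of length three or four. The walk changes one or two edges at a
time and keeps `SF` (argument of helper96 and helper12).
-/

set_option autoImplicit false
set_option linter.unusedSectionVars false

namespace H12Q

open SimpleGraph H58E

variable {V : Type*}

/-- no cycle of length three or four -/
def SF (F : SimpleGraph V) : Prop :=
  (∀ x y z, F.Adj x y → F.Adj y z → ¬ F.Adj x z) ∧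
  (∀ x y z w, F.Adj x y → F.Adj y z → F.Adj z w → F.Adj w x → x = z ∨ y = w)

theorem sf_mono {F F' : SimpleGraph V} (h : ∀ u v, F'.Adj u v → F.Adj u v) (hF : SF F) : SF F' :=
  ⟨fun x y z h1 h2 h3 => hF.1 x y z (h _ _ h1) (h _ _ h2) (h _ _ h3),
   fun x y z w h1 h2 h3 h4 => hF.2 x y z w (h _ _ h1) (h _ _ h2) (h _ _ h3) (h _ _ h4)⟩

theorem sf_rem {F : SimpleGraph V} (hF : SF F) (a x : V) : SF (remE F a x) :=
  sf_mono (fun _ _ h => h.1) hF

theorem tri_new {F : SimpleGraph V} {a x : V} (hax : a ≠ x)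
    (key : ∀ r, F.Adj a r → F.Adj r x → False) {p q r : V}
    (h2 : (addE F a x hax).Adj q r) (h3 : (addE F a x hax).Adj p r) (hp : p = a) (hq : q = x) :
    False := by
  subst hp hq
  have h3' := h3
  rcases h2 with h2 | h2 | h2
  · rcases h3 with h3 | h3 | h3
    · exact key r h3 h2.symm
    · rw [h3.2] at h2
      exact F.loopless.irrefl _ h2
    · exact hax h3.1
  · exact hax h2.1.symm
  · rw [h2.2] at h3'
    exact (addE F p q hax).loopless.irrefl _ h3'

theorem four_new {F : SimpleGraph V} {a x : V} (hax : a ≠ x)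
    (key : ∀ r s, F.Adj a r → F.Adj r s → F.Adj s x → False) {p q r s : V}
    (h2 : (addE F a x hax).Adj q r) (h3 : (addE F a x hax).Adj r s)
    (h4 : (addE F a x hax).Adj s p) (hp : p = a) (hq : q = x) : p = r ∨ q = s := by
  subst hp hq
  by_cases hr : r = p
  · exact Or.inl hr.symm
  by_cases hs : s = q
  · exact Or.inr hs.symm
  exfalso
  have k2 : F.Adj q r := by
    rcases h2 with h2 | h2 | h2
    · exact h2
    · exact absurd h2.1.symm hax
    · exact absurd h2.2 hr
  have k4 : F.Adj s p := by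
    rcases h4 with h4 | h4 | h4
    · exact h4
    · exact absurd h4.2 hax
    · exact absurd h4.1 hs
  have k3 : F.Adj r s := by
    rcases h3 with h3 | h3 | h3
    · exact h3
    · exact absurd h3.1 hr
    · rw [h3.1] at k2
      exact absurd k2 (F.loopless.irrefl _)
  exact key s r k4.symm k3.symm k2.symm

/-- adding an edge that closes no short cycle -/
theorem sf_add {F : SimpleGraph V} (hF : SF F) {a x : V} (hax : a ≠ x)
    (hs : ∀ w, F.Adj a w → ¬ F.Adj w x ∧ ∀ y, F.Adj w y → ¬ F.Adj y x) :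
    SF (addE F a x hax) := by
  have key : ∀ r, F.Adj a r → F.Adj r x → False := fun r h1 h2 => (hs r h1).1 h2
  have key4 : ∀ r s, F.Adj a r → F.Adj r s → F.Adj s x → False :=
    fun r s h1 h2 h3 => (hs r h1).2 s h2 h3
  constructor
  · intro p q r h1 h2 h3
    have h1' := h1
    have h2' := h2
    have h3' := h3
    rcases h1 with h1 | h1 | h1
    · rcases h2 with h2 | h2 | h2
      · rcases h3 with h3 | h3 | h3
        · exact hF.1 p q r h1 h2 h3
        · exact tri_new hax key h2'.symm h1' h3.1 h3.2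
        · exact tri_new hax key h1' h2'.symm h3.2 h3.1
      · exact tri_new hax key h3'.symm h1'.symm h2.1 h2.2
      · exact tri_new hax key h1'.symm h3'.symm h2.2 h2.1
    · exact tri_new hax key h2' h3' h1.1 h1.2
    · exact tri_new hax key h3' h2' h1.2 h1.1
  · intro p q r s h1 h2 h3 h4
    have h1' := h1
    have h2' := h2
    have h3' := h3
    have h4' := h4
    rcases h1 with h1 | h1 | h1
    · rcases h2 with h2 | h2 | h2
      · rcases h3 with h3 | h3 | h3
        · rcases h4 with h4 | h4 | h4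
          · exact hF.2 p q r s h1 h2 h3 h4
          · -- s = a, p = x
            rcases four_new hax key4 h1' h2' h3' h4.1 h4.2 with h | h
            · exact Or.inr h.symm
            · exact Or.inl h
          · -- s = x, p = a
            rcases four_new hax key4 h3'.symm h2'.symm h1'.symm h4.2 h4.1 with h | h
            · exact Or.inl h
            · exact Or.inr h.symm
        · -- r = a, s = x
          rcases four_new hax key4 h4' h1' h2' h3.1 h3.2 with h | h
          · exact Or.inl h.symm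
          · exact Or.inr h.symm
        · -- r = x, s = a
          rcases four_new hax key4 h2'.symm h1'.symm h4'.symm h3.2 h3.1 with h | h
          · exact Or.inr h.symm
          · exact Or.inl h.symm
      · -- q = a, r = x
        rcases four_new hax key4 h3' h4' h1' h2.1 h2.2 with h | h
        · exact Or.inr h
        · exact Or.inl h.symm
      · -- q = x, r = a
        rcases four_new hax key4 h1'.symm h4'.symm h3'.symm h2.2 h2.1 with h | h
        · exact Or.inl h.symm
        · exact Or.inr h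
    · exact four_new hax key4 h2' h3' h4' h1.1 h1.2
    · -- p = x, q = a
      rcases four_new hax key4 h4'.symm h3'.symm h2'.symm h1.2 h1.1 with h | h
      · exact Or.inr h
      · exact Or.inl h

section
variable [Finite V]

theorem nb1 {F : SimpleGraph V} {a : V} (h : dg F a = 1) :
    ∃ w, F.Adj a w ∧ ∀ v, F.Adj a v → v = w := by
  unfold dg at h
  rw [Set.ncard_eq_one] at h
  obtain ⟨w, hw⟩ := h
  refine ⟨w, ?_, fun v hv => ?_⟩
  · have : w ∈ F.neighborSet a := by rw [hw]; exact Set.mem_singleton w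
    exact this
  · have : v ∈ F.neighborSet a := hv
    rw [hw] at this
    exact this

theorem nb2 {F : SimpleGraph V} {a : V} (h : dg F a = 2) :
    ∃ p q, p ≠ q ∧ F.Adj a p ∧ F.Adj a q ∧ ∀ v, F.Adj a v → v = p ∨ v = q := by
  unfold dg at h
  rw [Set.ncard_eq_two] at h
  obtain ⟨p, q, hpq, hw⟩ := h
  refine ⟨p, q, hpq, ?_, ?_, fun v hv => ?_⟩
  · have : p ∈ F.neighborSet a := by rw [hw]; exact Set.mem_insert _ _
    exact this
  · have : q ∈ F.neighborSet a := by rw [hw]; exact Set.mem_insert_of_mem _ (Set.mem_singleton q)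
    exact this
  · have : v ∈ F.neighborSet a := hv
    rw [hw] at this
    exact this

theorem no3 {F : SimpleGraph V} {y p q r : V} (h : dg F y ≤ 2) (hp : F.Adj y p) (hq : F.Adj y q)
    (hr : F.Adj y r) (h1 : p ≠ q) (h2 : p ≠ r) (h3 : q ≠ r) : False := by
  rcases Nat.lt_or_ge (dg F y) 2 with h4 | h4
  · have h5 := adj_pos hp
    obtain ⟨w, -, hw⟩ := nb1 (show dg F y = 1 by omega)
    exact h1 ((hw p hp).trans (hw q hq).symm)
  · obtain ⟨u, v, -, -, -, hw⟩ := nb2 (show dg F y = 2 by omega)
    rcases hw p hp with e1 | e1 <;> rcases hw q hq with e2 | e2 <;> rcases hw r hr with e3 | e3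
    · exact h1 (e1.trans e2.symm)
    · exact h1 (e1.trans e2.symm)
    · exact h2 (e1.trans e3.symm)
    · exact h3 (e2.trans e3.symm)
    · exact h3 (e2.trans e3.symm)
    · exact h2 (e1.trans e3.symm)
    · exact h1 (e1.trans e2.symm)
    · exact h1 (e1.trans e2.symm)

theorem ms_add_two (F F2 : SimpleGraph V) {a x : V} (h : a ≠ x) (h1 : ¬ F.Adj a x)
    (h2 : F2.Adj a x) : ms (addE F a x h) F2 + 2 ≤ ms F F2 := by
  have hp : (a, x) ≠ (x, a) := fun e => h (congrArg Prod.fst e)
  have m1 : (a, x) ∈ ({p : V × V | ¬ (F.Adj p.1 p.2 ↔ F2.Adj p.1 p.2)}) := by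
    simp only [Set.mem_ofPred_eq]; tauto
  have m2 : (x, a) ∈ ({p : V × V | ¬ (F.Adj p.1 p.2 ↔ F2.Adj p.1 p.2)}) := by
    simp only [Set.mem_ofPred_eq]
    have := h2.symm
    have h4 : ¬ F.Adj x a := fun h5 => h1 h5.symm
    tauto
  have hsub : ({(a, x), (x, a)} : Set (V × V)) ⊆
      ({p : V × V | ¬ (F.Adj p.1 p.2 ↔ F2.Adj p.1 p.2)}) := by
    intro p hp
    rcases hp with hp | hp
    · rw [hp]; exact m1
    · rw [hp]; exact m2
  have e1 := Set.ncard_sdiff_add_ncard_of_subset hsub (Set.toFinite _)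
  have e2 : ({(a, x), (x, a)} : Set (V × V)).ncard = 2 := Set.ncard_pair hp
  have e3 : ms (addE F a x h) F2 ≤ (({p : V × V | ¬ (F.Adj p.1 p.2 ↔ F2.Adj p.1 p.2)}) \
      ({(a, x), (x, a)} : Set (V × V))).ncard := by
    unfold ms
    apply Set.ncard_le_ncard _ (Set.toFinite _)
    rintro ⟨u, v⟩ huv
    simp only [Set.mem_ofPred_eq, addE] at huv
    constructor
    · simp only [Set.mem_ofPred_eq]
      intro h3
      apply huv
      constructor
      · rintro (h4 | h4 | h4)
        · exact h3.1 h4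
        · rw [h4.1, h4.2]; exact h2
        · rw [h4.1, h4.2]; exact h2.symm
      · exact fun h4 => Or.inl (h3.2 h4)
    · rintro (h3 | h3)
      · apply huv
        have h4 := congrArg Prod.fst h3
        have h5 := congrArg Prod.snd h3
        simp only at h4 h5
        subst h4 h5
        exact ⟨fun _ => h2, fun _ => Or.inr (Or.inl ⟨rfl, rfl⟩)⟩
      · apply huv
        have h4 := congrArg Prod.fst (Set.mem_singleton_iff.1 h3)
        have h5 := congrArg Prod.snd (Set.mem_singleton_iff.1 h3)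
        simp only at h4 h5
        subst h4 h5
        exact ⟨fun _ => h2.symm, fun _ => Or.inr (Or.inr ⟨rfl, rfl⟩)⟩
  have e4 : ms F F2 = ({p : V × V | ¬ (F.Adj p.1 p.2 ↔ F2.Adj p.1 p.2)}).ncard := rfl
  omega

theorem ms_rem_le (F F2 : SimpleGraph V) (a x : V) : ms (remE F a x) F2 ≤ ms F F2 + 2 := by
  have e3 : ms (remE F a x) F2 ≤ (({p : V × V | ¬ (F.Adj p.1 p.2 ↔ F2.Adj p.1 p.2)}) ∪
      ({(a, x), (x, a)} : Set (V × V))).ncard := by
    unfold ms
    apply Set.ncard_le_ncard _ (Set.toFinite _)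
    rintro ⟨u, v⟩ huv
    simp only [Set.mem_ofPred_eq, remE] at huv
    by_cases h1 : u = a ∧ v = x
    · right; left; rw [h1.1, h1.2]
    by_cases h2 : u = x ∧ v = a
    · right; right; rw [h2.1, h2.2]; exact Set.mem_singleton _
    left
    simp only [Set.mem_ofPred_eq]
    intro h3
    apply huv
    exact ⟨fun h4 => h3.1 h4.1, fun h4 => ⟨h3.2 h4, h1, h2⟩⟩
  have e1 := Set.ncard_union_le ({p : V × V | ¬ (F.Adj p.1 p.2 ↔ F2.Adj p.1 p.2)})
    ({(a, x), (x, a)} : Set (V × V))
  have e2 : ({(a, x), (x, a)} : Set (V × V)).ncard ≤ 2 := Set.ncard_insert_le _ _ |>.trans (by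
    rw [Set.ncard_singleton])
  have e4 : ms F F2 = ({p : V × V | ¬ (F.Adj p.1 p.2 ↔ F2.Adj p.1 p.2)}).ncard := rfl
  omega

/-- evidence that the walk rotated at `d` -/
def Rot (F1 F2 : SimpleGraph V) (d a0 : V) : Prop :=
  ∃ a w, F2.Adj d a ∧ a ≠ a0 ∧ F2.Adj a w ∧ F1.Adj w a0

/-- the data of the exchange problem -/
structure Cx (F1 F2 : SimpleGraph V) (A : Set V) (b d : V) : Prop where
  hbd : b ≠ d
  s2 : SF F2
  h2 : ∀ v, dg F2 v = 0 ∨ dg F2 v = 2
  h1A : ∀ v ∈ A, dg F1 v = 2
  h2A : ∀ v ∈ A, dg F2 v = 2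
  h1d : dg F1 d = 0
  h2b : dg F2 b = 0

/-- the state of the walk -/
structure D5 (F1 F2 : SimpleGraph V) (A : Set V) (b d a0 a : V) (F : SimpleGraph V) : Prop where
  le : ∀ u v, F.Adj u v → F1.Adj u v ∨ F2.Adj u v
  sf : SF F
  ab : a ≠ b
  ad : a ≠ d
  dd : dg F d = 1
  db : dg F b = 2
  da : dg F a = 1
  dv : ∀ v, v ≠ a → v ≠ d → dg F v = 0 ∨ dg F v = 2
  dA : ∀ v ∈ A, v ≠ a → dg F v = 2
  ed : F.Adj d a0 ∨ Rot F1 F2 d a0

/-- the outcome of the walk -/
def Out (F1 F2 : SimpleGraph V) (A : Set V) (b d a0 : V) : Prop :=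
  ∃ F' : SimpleGraph V, (∀ u v, F'.Adj u v → F1.Adj u v ∨ F2.Adj u v) ∧ SF F' ∧
    (((∀ v, dg F' v = 0 ∨ dg F' v = 2) ∧ (∀ v ∈ A, dg F' v = 2) ∧ dg F' b = 2 ∧ dg F' d = 2) ∨
     (dg F' b = 1 ∧ dg F' d = 1 ∧ (∀ v, v ≠ b → v ≠ d → dg F' v = 0 ∨ dg F' v = 2) ∧
       (∀ v ∈ A, dg F' v = 2) ∧ (F'.Adj d a0 ∨ Rot F1 F2 d a0)))

variable {F1 F2 : SimpleGraph V} {A : Set V} {b d a0 : V}

theorem Cx.nb (hc : Cx F1 F2 A b d) : b ∉ A := fun h => by
  have := hc.h2A b h
  have := hc.h2b
  omega

theorem Cx.nd (hc : Cx F1 F2 A b d) : d ∉ A := fun h => by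
  have := hc.h1A d h
  have := hc.h1d
  omega

theorem Cx.adj_ne_b (hc : Cx F1 F2 A b d) {u v : V} (h : F2.Adj u v) : v ≠ b := by
  rintro rfl
  have := adj_pos h.symm
  have := hc.h2b
  omega

theorem Cx.two (hc : Cx F1 F2 A b d) {u v : V} (h : F2.Adj u v) : dg F2 u = 2 := by
  have := adj_pos h
  rcases hc.h2 u with h1 | h1 <;> omega

/-- edges of `F` at `d` belong to `F2` -/
theorem edge_d (hc : Cx F1 F2 A b d) {F : SimpleGraph V}
    (le : ∀ u v, F.Adj u v → F1.Adj u v ∨ F2.Adj u v) {u : V} (h : F.Adj u d) : F2.Adj u d := by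
  rcases le u d h with h1 | h1
  · have := adj_pos h1.symm
    have := hc.h1d
    omega
  · exact h1

theorem dg_le2 {a : V} {F : SimpleGraph V} (hS : D5 F1 F2 A b d a0 a F) (v : V) : dg F v ≤ 2 := by
  by_cases h1 : v = a
  · rw [h1, hS.da]; omega
  · by_cases h2 : v = d
    · rw [h2, hS.dd]; omega
    · rcases hS.dv v h1 h2 with h3 | h3 <;> omega

/-- remove `x u`, add `a x` -/
theorem swap_step (hc : Cx F1 F2 A b d) {a x u : V} {F : SimpleGraph V}
    (hS : D5 F1 F2 A b d a0 a F) (hax : a ≠ x) (h2ax : F2.Adj a x) (hn : ¬ F.Adj a x)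
    (hxu : F.Adj x u) (hud : u ≠ d) (hsf : SF (addE (remE F x u) a x hax))
    (hx : x ≠ d ∨ Rot F1 F2 d a0) :
    (u = b ∧ Out F1 F2 A b d a0) ∨
      (u ≠ b ∧ D5 F1 F2 A b d a0 u (addE (remE F x u) a x hax)) := by
  have xu : x ≠ u := F.ne_of_adj hxu
  have au : a ≠ u := by
    rintro rfl
    exact hn hxu.symm
  have hn' : ¬ (remE F x u).Adj a x := fun h => hn h.1
  have l1 : dg (addE (remE F x u) a x hax) a = 2 := by
    rw [dg_add_left _ hax hn', dg_rem_other F hax au, hS.da]
  have l2 : dg (addE (remE F x u) a x hax) x = dg F x := by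
    rw [dg_add_right _ hax hn', dg_rem_left F hxu]
  have l3 : dg (addE (remE F x u) a x hax) u + 1 = dg F u := by
    rw [dg_add_other _ hax au.symm xu.symm, dg_rem_right F hxu]
  have l4 : ∀ v, v ≠ a → v ≠ u → dg (addE (remE F x u) a x hax) v = dg F v := by
    intro v h1 h2
    by_cases h3 : v = x
    · rw [h3]; exact l2
    · rw [dg_add_other _ hax h1 h3, dg_rem_other F h3 h2]
  have hle : ∀ p q, (addE (remE F x u) a x hax).Adj p q → F1.Adj p q ∨ F2.Adj p q := by
    intro p q h
    rcases h with h | h | h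
    · exact hS.le p q h.1
    · rw [h.1, h.2]; exact Or.inr h2ax
    · rw [h.1, h.2]; exact Or.inr h2ax.symm
  have hd1 : dg (addE (remE F x u) a x hax) d = 1 := by
    rw [l4 d hS.ad.symm hud.symm]; exact hS.dd
  have hed : (addE (remE F x u) a x hax).Adj d a0 ∨ Rot F1 F2 d a0 := by
    rcases hS.ed with h1 | h1
    · rcases hx with h2 | h2
      · left
        left
        exact ⟨h1, fun h3 => h2 h3.1.symm, fun h3 => hud h3.1.symm⟩
      · exact Or.inr h2
    · exact Or.inr h1
  by_cases hub : u = b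
  · left
    refine ⟨hub, _, hle, hsf, Or.inr ⟨?_, hd1, ?_, ?_, hed⟩⟩
    · have := hS.db
      rw [← hub] at this ⊢
      omega
    · intro v h1 h2
      by_cases h3 : v = a
      · right; rw [h3]; exact l1
      · rw [l4 v h3 (hub ▸ h1)]; exact hS.dv v h3 h2
    · intro v hv
      by_cases h3 : v = a
      · rw [h3]; exact l1
      · rw [l4 v h3 (fun h4 => hc.nb (by rw [← hub, ← h4]; exact hv))]
        exact hS.dA v hv h3
  · right
    refine ⟨hub, hle, hsf, hub, hud, hd1, ?_, ?_, ?_, ?_, hed⟩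
    · rw [l4 b hS.ab.symm (Ne.symm hub)]; exact hS.db
    · have h1 := adj_pos hxu.symm
      rcases hS.dv u au.symm hud with h2 | h2 <;> omega
    · intro v h1 h2
      by_cases h3 : v = a
      · right; rw [h3]; exact l1
      · rw [l4 v h3 h1]; exact hS.dv v h3 h2
    · intro v hv h1
      by_cases h3 : v = a
      · rw [h3]; exact l1
      · rw [l4 v h3 h1]; exact hS.dA v hv h3

/-- add an edge that closes no short cycle, then repair the degree at its end -/
theorem add_step (hc : Cx F1 F2 A b d) {a x : V} {F : SimpleGraph V}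
    (hS : D5 F1 F2 A b d a0 a F) (hax : a ≠ x) (h2ax : F2.Adj a x) (hn : ¬ F.Adj a x)
    (hsf : SF (addE F a x hax)) :
    Out F1 F2 A b d a0 ∨ ∃ F' a', ms F' F2 < ms F F2 ∧ D5 F1 F2 A b d a0 a' F' := by
  have hxb : x ≠ b := hc.adj_ne_b h2ax
  have l1 : dg (addE F a x hax) a = 2 := by rw [dg_add_left F hax hn, hS.da]
  have l2 : dg (addE F a x hax) x = dg F x + 1 := dg_add_right F hax hn
  have l4 : ∀ v, v ≠ a → v ≠ x → dg (addE F a x hax) v = dg F v :=
    fun v h1 h2 => dg_add_other F hax h1 h2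
  have hle : ∀ p q, (addE F a x hax).Adj p q → F1.Adj p q ∨ F2.Adj p q := by
    intro p q h
    rcases h with h | h | h
    · exact hS.le p q h
    · rw [h.1, h.2]; exact Or.inr h2ax
    · rw [h.1, h.2]; exact Or.inr h2ax.symm
  by_cases hxd : x = d
  · left
    refine ⟨addE F a x hax, hle, hsf, Or.inl ⟨?_, ?_, ?_, ?_⟩⟩
    · intro v
      by_cases h1 : v = a
      · right; rw [h1]; exact l1
      · by_cases h2 : v = x
        · right; rw [h2, l2, hxd, hS.dd]
        · rw [l4 v h1 h2]; exact hS.dv v h1 (hxd ▸ h2)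
    · intro v hv
      by_cases h1 : v = a
      · rw [h1]; exact l1
      · have h2 : v ≠ x := fun h3 => hc.nd (by rw [← hxd, ← h3]; exact hv)
        rw [l4 v h1 h2]; exact hS.dA v hv h1
    · rw [l4 b hS.ab.symm hxb.symm]; exact hS.db
    · rw [← hxd, l2, hxd, hS.dd]
  · rcases hS.dv x hax.symm hxd with h0 | h0
    · right
      refine ⟨addE F a x hax, x, ms_add_lt F F2 hax hn h2ax, hle, hsf, hxb, hxd, ?_, ?_, ?_, ?_,
        ?_, ?_⟩
      · rw [l4 d hS.ad.symm (Ne.symm hxd)]; exact hS.dd
      · rw [l4 b hS.ab.symm hxb.symm]; exact hS.db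
      · omega
      · intro v h1 h2
        by_cases h3 : v = a
        · right; rw [h3]; exact l1
        · rw [l4 v h3 h1]; exact hS.dv v h3 h2
      · intro v hv h1
        by_cases h3 : v = a
        · rw [h3]; exact l1
        · rw [l4 v h3 h1]; exact hS.dA v hv h3
      · rcases hS.ed with h1 | h1
        · exact Or.inl (Or.inl h1)
        · exact Or.inr h1
    · -- an edge of `F` at `x` outside `F2`
      obtain ⟨u, hu, hu2⟩ : ∃ u, F.Adj x u ∧ ¬ F2.Adj x u := by
        by_contra hcon
        push Not at hcon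
        obtain ⟨p, q, hpq, hp, hq, -⟩ := nb2 h0
        exact no3 (F := F2) (y := x) (p := p) (q := q) (r := a) (by rw [hc.two h2ax.symm])
          (hcon p hp) (hcon q hq) h2ax.symm hpq (fun h => hn (by rw [← h]; exact hp.symm))
          (fun h => hn (by rw [← h]; exact hq.symm))
      have hud : u ≠ d := by
        rintro rfl
        exact hu2 (edge_d hc hS.le hu)
      have hsf' : SF (addE (remE F x u) a x hax) := by
        refine sf_mono ?_ hsf
        intro p q h
        rcases h with h | h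
        · exact Or.inl h.1
        · exact Or.inr h
      have hlt : ms (addE (remE F x u) a x hax) F2 < ms F F2 :=
        (ms_add_lt (remE F x u) F2 hax (fun h => hn h.1) h2ax).trans (ms_rem_lt F F2 hu hu2)
      rcases swap_step hc hS hax h2ax hn hu hud hsf' (Or.inl hxd) with h1 | h1
      · exact Or.inl h1.2
      · exact Or.inr ⟨_, u, hlt, h1.2⟩

/-- one step of the walk -/
theorem step5 (hc : Cx F1 F2 A b d) {a : V} {F : SimpleGraph V} (hS : D5 F1 F2 A b d a0 a F) :
    Out F1 F2 A b d a0 ∨ ∃ F' a', ms F' F2 < ms F F2 ∧ D5 F1 F2 A b d a0 a' F' := by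
  obtain ⟨w, haw, hw⟩ := nb1 hS.da
  rcases hc.h2 a with h2a | h2a
  · -- `a` is not in `F2`: remove its edge
    have h2aw : ¬ F2.Adj a w := fun h => by
      have := adj_pos h
      omega
    have hwd : w ≠ d := by
      rintro rfl
      exact h2aw (edge_d hc hS.le haw)
    have haw' : a ≠ w := F.ne_of_adj haw
    have haA : a ∉ A := fun h => by
      have := hc.h2A a h
      omega
    have l1 : dg (remE F a w) a = 0 := by
      have := dg_rem_left F haw
      have := hS.da
      omega
    have l2 := dg_rem_right F haw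
    have l4 : ∀ v, v ≠ a → v ≠ w → dg (remE F a w) v = dg F v :=
      fun v h1 h2 => dg_rem_other F h1 h2
    have hle : ∀ p q, (remE F a w).Adj p q → F1.Adj p q ∨ F2.Adj p q :=
      fun p q h => hS.le p q h.1
    have hd1 : dg (remE F a w) d = 1 := by rw [l4 d hS.ad.symm hwd.symm]; exact hS.dd
    have hed : (remE F a w).Adj d a0 ∨ Rot F1 F2 d a0 := by
      rcases hS.ed with h1 | h1
      · left
        exact ⟨h1, fun h3 => hS.ad h3.1.symm, fun h3 => hwd h3.1.symm⟩
      · exact Or.inr h1
    by_cases hwb : w = b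
    · left
      refine ⟨_, hle, sf_rem hS.sf a w, Or.inr ⟨?_, hd1, ?_, ?_, hed⟩⟩
      · have := hS.db
        rw [← hwb] at this ⊢
        omega
      · intro v h1 h2
        by_cases h3 : v = a
        · left; rw [h3]; exact l1
        · rw [l4 v h3 (hwb ▸ h1)]; exact hS.dv v h3 h2
      · intro v hv
        have h3 : v ≠ a := fun h4 => haA (h4 ▸ hv)
        rw [l4 v h3 (fun h4 => hc.nb (by rw [← hwb, ← h4]; exact hv))]
        exact hS.dA v hv h3
    · right
      refine ⟨_, w, ms_rem_lt F F2 haw h2aw, hle, sf_rem hS.sf a w, hwb, hwd, hd1, ?_, ?_, ?_, ?_,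
        hed⟩
      · rw [l4 b hS.ab.symm (Ne.symm hwb)]; exact hS.db
      · have h1 := adj_pos haw.symm
        rcases hS.dv w haw'.symm hwd with h2 | h2 <;> omega
      · intro v h1 h2
        by_cases h3 : v = a
        · left; rw [h3]; exact l1
        · rw [l4 v h3 h1]; exact hS.dv v h3 h2
      · intro v hv h1
        have h3 : v ≠ a := fun h4 => haA (h4 ▸ hv)
        rw [l4 v h3 h1]; exact hS.dA v hv h3
  · -- add an edge of `F2` at `a`
    by_cases hsafe : ∃ x, F2.Adj a x ∧ ¬ F.Adj a x ∧ ¬ F.Adj w x ∧ ∀ y, F.Adj w y → ¬ F.Adj y x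
    · obtain ⟨x, h2ax, hn, hs1, hs2⟩ := hsafe
      refine add_step hc hS (F2.ne_of_adj h2ax) h2ax hn (sf_add hS.sf _ ?_)
      intro w' hw'
      rw [hw w' hw']
      exact ⟨hs1, hs2⟩
    by_cases hA : ∃ x, F2.Adj a x ∧ ¬ F.Adj a x ∧ F.Adj w x ∧ ¬ F2.Adj w x
    · obtain ⟨x, h2ax, hn, hwx, h2wx⟩ := hA
      have hax := F2.ne_of_adj h2ax
      have hxd : x ≠ d := by
        rintro rfl
        exact h2wx (edge_d hc hS.le hwx)
      have hwd : w ≠ d := by
        rintro rfl
        exact h2wx (edge_d hc hS.le hwx.symm).symm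
      have hsf : SF (addE (remE F x w) a x hax) := by
        refine sf_add (sf_rem hS.sf x w) hax ?_
        intro w' hw'
        have e1 : w' = w := hw w' hw'.1
        subst e1
        refine ⟨fun h => h.2.2 ⟨rfl, rfl⟩, fun y hy hyx => ?_⟩
        have h3 : y = a := by
          by_contra hya
          have hyx' : y ≠ x := (remE F x w').ne_of_adj hyx
          exact no3 (dg_le2 hS w') haw.symm hwx hy.1 hax (Ne.symm hya) (Ne.symm hyx')
        rw [h3] at hyx
        exact hn hyx.1
      have hlt : ms (addE (remE F x w) a x hax) F2 < ms F F2 :=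
        (ms_add_lt (remE F x w) F2 hax (fun h => hn h.1) h2ax).trans
          (ms_rem_lt F F2 hwx.symm (fun h => h2wx h.symm))
      rcases swap_step hc hS hax h2ax hn hwx.symm hwd hsf (Or.inl hxd) with h1 | h1
      · exact Or.inl h1.2
      · exact Or.inr ⟨_, w, hlt, h1.2⟩
    by_cases hB : ∃ x y, F2.Adj a x ∧ ¬ F.Adj a x ∧ ¬ F.Adj w x ∧ F.Adj w y ∧ F.Adj y x ∧
        ¬ F2.Adj y x
    · obtain ⟨x, y, h2ax, hn, hwx, hwy, hyx, h2yx⟩ := hB
      have hax := F2.ne_of_adj h2ax
      have hxd : x ≠ d := by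
        rintro rfl
        exact h2yx (edge_d hc hS.le hyx)
      have hyd : y ≠ d := by
        rintro rfl
        exact h2yx (edge_d hc hS.le hyx.symm).symm
      have hya : y ≠ a := by
        rintro rfl
        exact hn hyx
      have hsf : SF (addE (remE F x y) a x hax) := by
        refine sf_add (sf_rem hS.sf x y) hax ?_
        intro w' hw'
        have e1 : w' = w := hw w' hw'.1
        subst e1
        refine ⟨fun h => hwx h.1, fun y' hy' hyx' => ?_⟩
        by_cases h3 : y' = a
        · rw [h3] at hyx'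
          exact hn hyx'.1
        · by_cases h4 : y' = y
          · rw [h4] at hyx'
            exact hyx'.2.2 ⟨rfl, rfl⟩
          · exact no3 (dg_le2 hS w') haw.symm hwy hy'.1 hya.symm (Ne.symm h3) (Ne.symm h4)
      have hlt : ms (addE (remE F x y) a x hax) F2 < ms F F2 :=
        (ms_add_lt (remE F x y) F2 hax (fun h => hn h.1) h2ax).trans
          (ms_rem_lt F F2 hyx.symm (fun h => h2yx h.symm))
      rcases swap_step hc hS hax h2ax hn hyx.symm hyd hsf (Or.inl hxd) with h1 | h1
      · exact Or.inl h1.2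
      · exact Or.inr ⟨_, y, hlt, h1.2⟩
    -- all candidates are in trouble
    have hX : ∀ x, F2.Adj a x → ¬ F.Adj a x →
        (F.Adj w x ∧ F2.Adj w x) ∨ (¬ F.Adj w x ∧ ∃ y, F.Adj w y ∧ F.Adj y x ∧ F2.Adj y x) := by
      intro x h1 h2
      by_cases h3 : F.Adj w x
      · left
        refine ⟨h3, ?_⟩
        by_contra h4
        exact hA ⟨x, h1, h2, h3, h4⟩
      · right
        refine ⟨h3, ?_⟩
        by_contra h4
        push Not at h4
        apply hsafe
        refine ⟨x, h1, h2, h3, fun y hy hyx => ?_⟩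
        exact hB ⟨x, y, h1, h2, h3, hy, hyx, h4 y hy hyx⟩
    obtain ⟨x, h2ax, hn⟩ := ex_of_lt (F := F) (F2 := F2) (a := a) (by rw [hS.da, h2a]; omega)
    have hax := F2.ne_of_adj h2ax
    rcases hX x h2ax hn with ⟨hwx, h2wx⟩ | ⟨hwx, y, hwy, hyx, h2yx⟩
    · exfalso
      -- `a w` is not in `F2`
      have h2aw : ¬ F2.Adj a w := fun h => hc.s2.1 a w x h h2wx h2ax
      obtain ⟨p, q, hpq, hp, hq, hpq'⟩ := nb2 h2a
      obtain ⟨x', hx'x, h2ax'⟩ : ∃ x', x' ≠ x ∧ F2.Adj a x' := by
        by_cases h : p = x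
        · exact ⟨q, fun h1 => hpq (h.trans h1.symm), hq⟩
        · exact ⟨p, h, hp⟩
      have hn' : ¬ F.Adj a x' := fun h => h2aw (by rw [← hw x' h]; exact h2ax')
      have hax' := F2.ne_of_adj h2ax'
      rcases hX x' h2ax' hn' with ⟨h1, -⟩ | ⟨-, y, hwy, hyx', h2yx'⟩
      · exact no3 (dg_le2 hS w) haw.symm hwx h1 hax hax' hx'x.symm
      · have hya : y ≠ a := by
          rintro rfl
          exact hn' hyx'
        by_cases h1 : y = x
        · rw [h1] at h2yx'
          exact hc.s2.1 a x x' h2ax h2yx' h2ax'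
        · exact no3 (dg_le2 hS w) haw.symm hwx hwy hax hya.symm (Ne.symm h1)
    · have hya : y ≠ a := by
        rintro rfl
        exact hn hyx
      have hwx' : w ≠ x := by
        rintro rfl
        exact hn haw
      have hwN : ∀ v, F.Adj w v → v = a ∨ v = y := by
        intro v hv
        by_contra h
        rw [not_or] at h
        exact no3 (dg_le2 hS w) haw.symm hwy hv hya.symm (Ne.symm h.1) (Ne.symm h.2)
      -- `a w` is in `F2`
      have h2aw : F2.Adj a w := by
        by_contra h2aw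
        obtain ⟨p, q, hpq, hp, hq, hpq'⟩ := nb2 h2a
        obtain ⟨x', hx'x, h2ax'⟩ : ∃ x', x' ≠ x ∧ F2.Adj a x' := by
          by_cases h : p = x
          · exact ⟨q, fun h1 => hpq (h.trans h1.symm), hq⟩
          · exact ⟨p, h, hp⟩
        have hn' : ¬ F.Adj a x' := fun h => h2aw (by rw [← hw x' h]; exact h2ax')
        have hax' := F2.ne_of_adj h2ax'
        rcases hX x' h2ax' hn' with ⟨h1, h1'⟩ | ⟨-, y', hwy', hyx', h2yx'⟩
        · -- `x' = y`
          rcases hwN x' h1 with h3 | h3
          · exact hax' h3.symm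
          · rw [h3] at h2ax'
            exact hc.s2.1 a y x h2ax' h2yx h2ax
        · have h3 : y' = y := by
            rcases hwN y' hwy' with h3 | h3
            · rw [h3] at hyx'
              exact absurd hyx' hn'
            · exact h3
          rw [h3] at hyx'
          refine no3 (dg_le2 hS y) hwy.symm hyx hyx' hwx' ?_ hx'x.symm
          rintro rfl
          exact hn' haw
      -- the fourth edge is not in `F2`
      have h2wy : ¬ F2.Adj w y := by
        intro h
        rcases hc.s2.2 a w y x h2aw h h2yx h2ax.symm with h3 | h3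
        · exact hya h3.symm
        · exact hwx' h3
      have hyd : y ≠ d := by
        rintro rfl
        exact h2wy (edge_d hc hS.le hwy)
      have haN2 : ∀ v, F2.Adj a v → v = w ∨ v = x := by
        intro v hv
        by_contra h
        rw [not_or] at h
        exact no3 (h2a.le) h2aw h2ax hv hwx' (Ne.symm h.1) (Ne.symm h.2)
      have h1wy : F1.Adj w y := by
        rcases hS.le w y hwy with h | h
        · exact h
        · exact absurd h h2wy
      have hsf : SF (addE (remE F x y) a x hax) := by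
        refine sf_add (sf_rem hS.sf x y) hax ?_
        intro w' hw'
        have e1 : w' = w := hw w' hw'.1
        subst e1
        refine ⟨fun h => hwx h.1, fun y' hy' hyx' => ?_⟩
        rcases hwN y' hy'.1 with h3 | h3
        · rw [h3] at hyx'
          exact hn hyx'.1
        · rw [h3] at hyx'
          exact hyx'.2.2 ⟨rfl, rfl⟩
      have hx : x ≠ d ∨ Rot F1 F2 d a0 := by
        by_cases hxd : x = d
        · right
          rcases hS.ed with h | h
          · -- `a0 = y`
            have h3 : a0 = y := by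
              obtain ⟨v, -, hv⟩ := nb1 hS.dd
              rw [hv a0 h, hv y (by rw [← hxd]; exact hyx.symm)]
            refine ⟨a, w, by rw [← hxd]; exact h2ax.symm, ?_, h2aw, ?_⟩
            · rw [h3]; exact hya.symm
            · rw [h3]; exact h1wy
          · exact h
        · exact Or.inl hxd
      rcases swap_step hc hS hax h2ax hn hyx.symm hyd hsf hx with h1 | ⟨hyb, hS'⟩
      · exact Or.inl h1.2
      · -- continue with the other `F2`-edge of `y`
        have h2y : dg F2 y = 2 := hc.two h2yx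
        obtain ⟨y', hy'x, h2yy'⟩ : ∃ y', y' ≠ x ∧ F2.Adj y y' := by
          obtain ⟨p, q, hpq, hp, hq, -⟩ := nb2 h2y
          by_cases h : p = x
          · exact ⟨q, fun h1 => hpq (h.trans h1.symm), hq⟩
          · exact ⟨p, h, hp⟩
        have hy'w : y' ≠ w := by
          rintro rfl
          exact h2wy h2yy'.symm
        have hy'a : y' ≠ a := by
          rintro rfl
          rcases haN2 y h2yy'.symm with h3 | h3
          · exact F.ne_of_adj hwy h3.symm
          · exact F.ne_of_adj hyx h3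
        have hyN : ∀ v, (addE (remE F x y) a x hax).Adj y v → v = w := by
          intro v hv
          rcases hv with hv | hv | hv
          · by_contra h
            have h3 : v ≠ x := fun h4 => hv.2.2 ⟨rfl, h4⟩
            exact no3 (dg_le2 hS y) hwy.symm hyx hv.1 hwx' (Ne.symm h) (Ne.symm h3)
          · exact absurd hv.1 hya
          · exact absurd hv.1 (F.ne_of_adj hyx)
        have hyy' : y ≠ y' := F2.ne_of_adj h2yy'
        have hn' : ¬ (addE (remE F x y) a x hax).Adj y y' := fun h => hy'w (hyN y' h)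
        have hsf' : SF (addE (addE (remE F x y) a x hax) y y' hyy') := by
          refine sf_add hsf hyy' ?_
          intro w1 hw1
          have e1 : w1 = w := hyN w1 hw1
          subst e1
          have hwN' : ∀ v, (addE (remE F x y) a x hax).Adj w1 v → v = a ∨ v = y := by
            intro v hv
            rcases hv with hv | hv | hv
            · exact hwN v hv.1
            · exact absurd hv.1 (F.ne_of_adj haw).symm
            · exact absurd hv.1 hwx'
          refine ⟨fun h => ?_, fun y1 hy1 h => ?_⟩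
          · rcases hwN' y' h with h3 | h3
            · exact hy'a h3
            · exact hyy' h3.symm
          · rcases hwN' y1 hy1 with h3 | h3
            · subst h3
              rcases h with h | h | h
              · exact hy'w (hw y' h.1)
              · exact hy'x h.2
              · exact hax h.1
            · rw [h3] at h
              exact hn' h
        have hle : ms (addE (remE F x y) a x hax) F2 ≤ ms F F2 := by
          have h3 := ms_add_two (remE F x y) F2 hax (fun h => hn h.1) h2ax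
          have h4 := ms_rem_le F F2 x y
          omega
        rcases add_step hc hS' hyy' h2yy' hn' hsf' with h3 | ⟨F', a', h3, h4⟩
        · exact Or.inl h3
        · exact Or.inr ⟨F', a', lt_of_lt_of_le h3 hle, h4⟩

theorem walk_ind5 (hc : Cx F1 F2 A b d) : ∀ (n : ℕ) (F : SimpleGraph V) (a : V),
    ms F F2 ≤ n → D5 F1 F2 A b d a0 a F → Out F1 F2 A b d a0 := by
  intro n
  induction n with
  | zero =>
    intro F a hn hS
    rcases step5 hc hS with h | ⟨F', a', h, -⟩
    · exact h
    · omega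
  | succ n ih =>
    intro F a hn hS
    rcases step5 hc hS with h | ⟨F', a', h, h'⟩
    · exact h
    · exact ih F' a' (by omega) h'

/-- **The walk for short-cycle-free coverings.** -/
theorem walk5 (F1 F2 : SimpleGraph V) (A : Set V) (b d a0 : V) (s1 : SF F1) (s2 : SF F2)
    (h1 : ∀ v, dg F1 v = 0 ∨ dg F1 v = 2) (h2 : ∀ v, dg F2 v = 0 ∨ dg F2 v = 2)
    (h1A : ∀ v ∈ A, dg F1 v = 2) (h2A : ∀ v ∈ A, dg F2 v = 2) (h1b : dg F1 b = 2)
    (h1d : dg F1 d = 0) (h2b : dg F2 b = 0) (ha0 : F2.Adj d a0) : Out F1 F2 A b d a0 := by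
  have hbd : b ≠ d := by
    rintro rfl
    omega
  have hc : Cx F1 F2 A b d := ⟨hbd, s2, h2, h1A, h2A, h1d, h2b⟩
  have hda : d ≠ a0 := F2.ne_of_adj ha0
  have hnd : ∀ v, ¬ F1.Adj d v := fun v h => by
    have := adj_pos h
    omega
  have hab : a0 ≠ b := hc.adj_ne_b ha0
  have l1 : dg (addE F1 d a0 hda) d = 1 := by
    rw [dg_add_left F1 hda (hnd a0), h1d]
  have l2 : dg (addE F1 d a0 hda) a0 = dg F1 a0 + 1 := dg_add_right F1 hda (hnd a0)
  have l4 : ∀ v, v ≠ d → v ≠ a0 → dg (addE F1 d a0 hda) v = dg F1 v :=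
    fun v h3 h4 => dg_add_other F1 hda h3 h4
  have hsf : SF (addE F1 d a0 hda) := sf_add s1 hda (fun w hw => absurd hw (hnd w))
  have hle : ∀ p q, (addE F1 d a0 hda).Adj p q → F1.Adj p q ∨ F2.Adj p q := by
    intro p q h
    rcases h with h | h | h
    · exact Or.inl h
    · rw [h.1, h.2]; exact Or.inr ha0
    · rw [h.1, h.2]; exact Or.inr ha0.symm
  have hda0 : (addE F1 d a0 hda).Adj d a0 := Or.inr (Or.inl ⟨rfl, rfl⟩)
  rcases h1 a0 with h3 | h3
  · exact walk_ind5 hc _ (addE F1 d a0 hda) a0 le_rfl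
      ⟨hle, hsf, hab, hda.symm, l1, by rw [l4 b hbd hab.symm]; exact h1b, by omega,
        fun v h4 h5 => by rw [l4 v h5 h4]; exact h1 v,
        fun v hv h4 => by
          have h5 : v ≠ d := fun h6 => hc.nd (h6 ▸ hv)
          rw [l4 v h5 h4]; exact h1A v hv,
        Or.inl hda0⟩
  · -- remove an edge of `F1` at `a0` outside `F2`
    obtain ⟨u, hu, hu2⟩ : ∃ u, F1.Adj a0 u ∧ ¬ F2.Adj a0 u := by
      by_contra hcon
      push Not at hcon
      obtain ⟨p, q, hpq, hp, hq, -⟩ := nb2 h3
      exact no3 (F := F2) (y := a0) (p := p) (q := q) (r := d) (by rw [hc.two ha0.symm])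
        (hcon p hp) (hcon q hq) ha0.symm hpq (fun h => hnd a0 (by rw [← h]; exact hp.symm))
        (fun h => hnd a0 (by rw [← h]; exact hq.symm))
    have hud : u ≠ d := fun h => hnd a0 (by rw [← h]; exact hu.symm)
    have hua : a0 ≠ u := F1.ne_of_adj hu
    have hu' : (addE F1 d a0 hda).Adj a0 u := Or.inl hu
    have m1 := dg_rem_left (addE F1 d a0 hda) hu'
    have m2 := dg_rem_right (addE F1 d a0 hda) hu'
    have m4 : ∀ v, v ≠ a0 → v ≠ u → dg (remE (addE F1 d a0 hda) a0 u) v =
        dg (addE F1 d a0 hda) v := fun v h4 h5 => dg_rem_other _ h4 h5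
    have hd1 : dg (remE (addE F1 d a0 hda) a0 u) d = 1 := by
      rw [m4 d hda hud.symm]; exact l1
    have hle' : ∀ p q, (remE (addE F1 d a0 hda) a0 u).Adj p q → F1.Adj p q ∨ F2.Adj p q :=
      fun p q h => hle p q h.1
    have hed : (remE (addE F1 d a0 hda) a0 u).Adj d a0 :=
      ⟨hda0, fun h => hda h.1, fun h => hud h.1.symm⟩
    have q1 : dg (remE (addE F1 d a0 hda) a0 u) a0 = 2 := by omega
    have q2 : dg (remE (addE F1 d a0 hda) a0 u) u = 1 := by
      rw [l4 u hud hua.symm] at m2
      have := adj_pos hu.symm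
      rcases h1 u with h4 | h4 <;> omega
    have q4 : ∀ v, v ≠ d → v ≠ u → dg (remE (addE F1 d a0 hda) a0 u) v = dg F1 v := by
      intro v h4 h5
      by_cases h6 : v = a0
      · rw [h6, q1, h3]
      · rw [m4 v h6 h5, l4 v h4 h6]
    by_cases hub : u = b
    · refine ⟨_, hle', sf_rem hsf a0 u, Or.inr ⟨by rw [← hub]; exact q2, hd1, ?_, ?_,
        Or.inl hed⟩⟩
      · intro v h4 h5
        rw [q4 v h5 (hub ▸ h4)]; exact h1 v
      · intro v hv
        rw [q4 v (fun h6 => hc.nd (h6 ▸ hv)) (fun h6 => hc.nb (by rw [← hub, ← h6]; exact hv))]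
        exact h1A v hv
    · exact walk_ind5 hc _ (remE (addE F1 d a0 hda) a0 u) u le_rfl
        ⟨hle', sf_rem hsf a0 u, hub, hud, hd1,
          by rw [q4 b hbd (Ne.symm hub)]; exact h1b, q2,
          fun v h4 h5 => by rw [q4 v h5 h4]; exact h1 v,
          fun v hv h4 => by
            rw [q4 v (fun h6 => hc.nd (h6 ▸ hv)) h4]; exact h1A v hv,
          Or.inl hed⟩

end

end H12Q
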